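import Pool.Agent.V11151.PM.Tab

set_option autoImplicit false
set_option maxRecDepth 100000

namespace PM8


theorem chk_pf : ∀ (i : Fin 105) (a : Fin 8), mf i (pf i a) = pf i (mf 0 a) := by decide +kernel

theorem chk_pf_inj : ∀ (i : Fin 105) (a b : Fin 8), pf i a = pf i b → a = b := by decide +kernel

theorem chk_qf0 : ∀ (i : Fin 105) (a : Fin 8), mf 0 (qf i a) = qf i (mf 0 a) := by decide +kernel

theorem chk_qf : ∀ (i : Fin 105) (a : Fin 8), mf (rep i) (qf i a) = qf i (mf i a) := by decide +kernel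

theorem chk_qf_inj : ∀ (i : Fin 105) (a b : Fin 8), qf i a = qf i b → a = b := by decide +kernel

theorem chk_sw : ∀ (k : Fin 7) (i : Fin 105) (a : Fin 8),
    mf (sw k i) (Equiv.swap k.castSucc k.succ a) = Equiv.swap k.castSucc k.succ (mf i a) := by
  decide +kernel

theorem chk_edge : ∀ j k : Fin 105, j ≠ 0 → Hb 0 j = false → k ≠ 0 → k ≠ j →
    inter k 0 + inter k j < 8 + inter 0 j := by decide +kernel

theorem chk_kl : ∀ j : Fin 105, Hb 0 j = true →
    kk j ≠ 0 ∧ kk j ≠ j ∧ ll j ≠ 0 ∧ ll j ≠ j ∧ inter 0 j = 0 ∧ inter (kk j) (ll j) = 0 ∧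
    inter 0 (kk j) = 4 ∧ inter 0 (ll j) = 4 ∧ inter j (kk j) = 4 ∧ inter j (ll j) = 4 := by
  decide +kernel

theorem chk_self : ∀ j : Fin 105, inter j j = 8 := by decide +kernel

theorem chk_lt : ∀ j : Fin 105, j ≠ 0 → inter 0 j < 8 := by decide +kernel

theorem chk_row : ∑ j : Fin 105, inter 0 j = 120 := by decide +kernel

end PM8
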