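import Pool.Agent.V11151.PM.Tab

set_option autoImplicit false
set_option maxRecDepth 100000

namespace PM8


/-- number of common neighbours in the graph `H` -/
def cn (i j : Fin 105) : ℕ := (Finset.univ.filter (fun k : Fin 105 => Hb i k = true ∧ Hb j k = true)).card

def gfun (n : ℕ) : ℕ := if n = 0 then 2 else if n = 2 then 4 else 0

theorem chk_cn : ∀ j : Fin 105, j ≠ 0 → Hb 0 j = false → inter 0 j = gfun (cn 0 j) := by
  decide +kernel

theorem chk_sq : ∀ k : Fin 105, ∑ j : Fin 105, inter 0 j * inter j k = 36 * inter 0 k + 96 := by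
  decide +kernel

theorem chk_ptpl : ∀ i j : Fin 105, pt i = pt j → pl i = pl j → i = j := by decide +kernel

theorem chk_incT : ∀ p l : Fin 16,
    (Finset.univ.filter (fun i : Fin 105 => pt i = p ∧ pl i = l)).card = incT p l := by
  decide +kernel

theorem chk_c : ∀ l l' : Fin 16, l ≠ 0 →
    (∑ j ∈ Finset.univ.filter (fun j : Fin 105 => pl j = l), incT (pt j) l') =
      (if l' = 0 then 0 else if l = l' then 7 else 3) := by
  decide +kernel

theorem chk_cnt : ((Finset.univ.filter (fun j : Fin 105 => rep j = 0)).card = 1 ∧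
    (Finset.univ.filter (fun j : Fin 105 => rep j = 1)).card = 12 ∧
    (Finset.univ.filter (fun j : Fin 105 => rep j = 4)).card = 32 ∧
    (Finset.univ.filter (fun j : Fin 105 => rep j = 16)).card = 12 ∧
    (Finset.univ.filter (fun j : Fin 105 => rep j = 19)).card = 48) ∧
    ∀ j : Fin 105, rep j = 0 ∨ rep j = 1 ∨ rep j = 4 ∨ rep j = 16 ∨ rep j = 19 := by
  decide +kernel

theorem chk_pl0 : ∀ j : Fin 105, pl j ≠ 0 := by decide +kernel

/-- `z_i + z_j = z_k + z_l` quadruples -/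
def Quad (i j k l : Fin 105) : Prop :=
  inter i j = 0 ∧ inter k l = 0 ∧ inter i k = 4 ∧ inter i l = 4 ∧ inter j k = 4 ∧ inter j l = 4

instance (i j k l : Fin 105) : Decidable (Quad i j k l) := by unfold Quad; infer_instance

theorem chk_quads : Quad 16 0 1 15 ∧ Quad 18 4 3 19 ∧ Quad 46 38 31 53 ∧
    rep 16 = 16 ∧ rep 0 = 0 ∧ rep 1 = 1 ∧ rep 15 = 1 ∧ rep 18 = 4 ∧ rep 4 = 4 ∧ rep 3 = 1 ∧
    rep 19 = 19 ∧ rep 46 = 19 ∧ rep 38 = 19 ∧ rep 31 = 16 ∧ rep 53 = 16 ∧
    inter 0 1 = 4 ∧ inter 0 4 = 2 ∧ inter 0 16 = 0 ∧ inter 0 19 = 0 := by decide +kernel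

end PM8
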