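import Pool.Agent.V11151.PM.Poly

set_option autoImplicit false
set_option linter.unusedSectionVars false

namespace PM8

open Module

/-- A full-dimensional convex polytope in the Euclidean space `E` whose vertices have barycentre
`0`, given by its finite set of vertices (the extreme points of its convex hull). -/
structure Polytope (E : Type) [NormedAddCommGroup E] [InnerProductSpace ℝ E] where
  /-- the vertices -/
  verts : Finset E
  extreme : (verts : Set E) = (convexHull ℝ (verts : Set E)).extremePoints ℝ
  full : (interior (convexHull ℝ (verts : Set E))).Nonempty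
  bary : ∑ v ∈ verts, v = 0

section

variable {E E' : Type} [NormedAddCommGroup E] [InnerProductSpace ℝ E]
  [NormedAddCommGroup E'] [InnerProductSpace ℝ E']

/-- the polytope as a set -/
def Polytope.body (P : Polytope E) : Set E := convexHull ℝ (P.verts : Set E)

/-- the faces of a polytope (the empty face, and the sets of maximisers of linear functionals),
ordered by inclusion -/
abbrev Polytope.Face (P : Polytope E) : Type := {F : Set E // IsExposed ℝ P.body F}

/-- combinatorial equivalence: the face lattices are isomorphic -/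
def CombEquiv (P : Polytope E) (Q : Polytope E') : Prop := Nonempty (P.Face ≃o Q.Face)

/-- the edge-graph -/
def Polytope.edgeGraph (P : Polytope E) : SimpleGraph P.verts where
  Adj v w := v ≠ w ∧ IsExposed ℝ P.body (segment ℝ v.1 w.1)
  symm := ⟨by
    rintro v w ⟨h1, h2⟩
    refine ⟨h1.symm, ?_⟩
    rw [segment_symm]; exact h2⟩
  loopless := ⟨by
    rintro v ⟨h, _⟩
    exact h rfl⟩

variable [FiniteDimensional ℝ E] [FiniteDimensional ℝ E']

lemma Polytope.full' (P : Polytope E) : affineSpan ℝ (P.verts : Set E) = ⊤ := by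
  have := P.full
  rwa [interior_convexHull_nonempty_iff_affineSpan_eq_top] at this

lemma dim_le_aux : ∀ n : ℕ, ∀ (P : Polytope E) (Q : Polytope E') (f : P.Face ≃o Q.Face)
    (F : P.Face), F.1.Nonempty → finrank ℝ (vectorSpan ℝ F.1) = n →
    n ≤ finrank ℝ (vectorSpan ℝ (f F).1) := by
  intro n
  induction n with
  | zero => intros; exact Nat.zero_le _
  | succ n ih =>
    intro P Q f F hne hF
    obtain ⟨F', hF', hne', hsub, hneq, hle⟩ := exists_facet P.extreme F.2 hne (by omega)
    -- choose a face of smaller dimension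
    have h1 := fdim_lt hF' hne' F.2 hsub hneq
    have h2 : finrank ℝ (vectorSpan ℝ F') = n := by omega
    have h3 := ih P Q f ⟨F', hF'⟩ hne' h2
    have hfne : (f ⟨F', hF'⟩).1.Nonempty := by
      rw [Set.nonempty_iff_ne_empty]
      intro h0
      have hempty : IsExposed ℝ P.body (∅ : Set E) := fun h => absurd h Set.not_nonempty_empty
      have h4 : f ⟨F', hF'⟩ ≤ f ⟨∅, hempty⟩ := by
        change (f ⟨F', hF'⟩).1 ⊆ _
        rw [h0]
        exact Set.empty_subset _
      have h5 := f.le_iff_le.mp h4
      have h6 : F' ⊆ (∅ : Set E) := h5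
      obtain ⟨x, hx⟩ := hne'
      exact h6 hx
    have hlt : f ⟨F', hF'⟩ < f F := by
      apply f.lt_iff_lt.mpr
      refine lt_of_le_of_ne hsub ?_
      intro h
      apply hneq
      exact congrArg Subtype.val h
    have h7 := fdim_lt (V := Q.verts) (f ⟨F', hF'⟩).2 hfne (f F).2 hlt.le (by
      intro h
      exact hlt.ne (Subtype.ext h))
    omega

lemma body_exposed (P : Polytope E) : IsExposed ℝ P.body P.body := fun _ =>
  ⟨0, by ext x; simp⟩

lemma vectorSpan_body (P : Polytope E) : vectorSpan ℝ P.body = ⊤ := by
  unfold Polytope.body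
  rw [← direction_affineSpan, affineSpan_convexHull, P.full', AffineSubspace.direction_top]

lemma verts_nonempty (P : Polytope E) : P.verts.Nonempty := by
  rw [Finset.nonempty_iff_ne_empty]
  intro h
  have := P.full'
  rw [h] at this
  simp only [Finset.coe_empty, AffineSubspace.span_empty] at this
  exact (AffineSubspace.bot_ne_top ℝ E E) this

lemma body_nonempty (P : Polytope E) : P.body.Nonempty := by
  obtain ⟨v, hv⟩ := verts_nonempty P
  exact ⟨v, subset_convexHull ℝ _ (Finset.mem_coe.mpr hv)⟩

/-- combinatorially equivalent polytopes have the same dimension -/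
theorem dim_le {P : Polytope E} {Q : Polytope E'} (h : CombEquiv P Q) :
    finrank ℝ E ≤ finrank ℝ E' := by
  obtain ⟨f⟩ := h
  have h1 := dim_le_aux _ P Q f ⟨P.body, body_exposed P⟩ (body_nonempty P) rfl
  rw [vectorSpan_body, finrank_top] at h1
  exact h1.trans (Submodule.finrank_le _)

theorem CombEquiv.symm {P : Polytope E} {Q : Polytope E'} (h : CombEquiv P Q) : CombEquiv Q P := by
  obtain ⟨f⟩ := h
  exact ⟨f.symm⟩

theorem dim_eq {P : Polytope E} {Q : Polytope E'} (h : CombEquiv P Q) :
    finrank ℝ E = finrank ℝ E' := le_antisymm (dim_le h) (dim_le h.symm)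

lemma image_empty' {P : Polytope E} {Q : Polytope E'} (f : P.Face ≃o Q.Face) (F : P.Face)
    (hne : F.1.Nonempty) : (f F).1.Nonempty := by
  rw [Set.nonempty_iff_ne_empty]
  intro h0
  have hempty : IsExposed ℝ P.body (∅ : Set E) := fun h => absurd h Set.not_nonempty_empty
  have h4 : f F ≤ f ⟨∅, hempty⟩ := by
    change (f F).1 ⊆ _
    rw [h0]
    exact Set.empty_subset _
  have h5 := f.le_iff_le.mp h4
  have h6 : F.1 ⊆ (∅ : Set E) := h5
  obtain ⟨x, hx⟩ := hne
  exact h6 hx

/-- the vertex as a face -/
def vface (P : Polytope E) (v : P.verts) : P.Face := ⟨{v.1}, vertex_exposed P.extreme v.2⟩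

lemma exists_vmap {P : Polytope E} {Q : Polytope E'} (f : P.Face ≃o Q.Face) (v : P.verts) :
    ∃ w : Q.verts, f (vface P v) = vface Q w := by
  have hne := image_empty' f (vface P v) ⟨v.1, rfl⟩
  obtain ⟨w, hw, hwF⟩ := exists_vertex_mem (f (vface P v)).2 hne
  refine ⟨⟨w, hw⟩, ?_⟩
  have h1 : vface Q ⟨w, hw⟩ ≤ f (vface P v) := by
    change ({w} : Set E') ⊆ _
    simpa using hwF
  have h2 : f.symm (vface Q ⟨w, hw⟩) ≤ vface P v := by
    rw [OrderIso.symm_apply_le]; exact h1
  have h3 := image_empty' f.symm (vface Q ⟨w, hw⟩) ⟨w, rfl⟩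
  have h4 : f.symm (vface Q ⟨w, hw⟩) = vface P v := by
    apply Subtype.ext
    exact (Set.subset_singleton_iff_eq.mp h2).resolve_left (Set.nonempty_iff_ne_empty.mp h3)
  rw [← h4, f.apply_symm_apply]

lemma vface_injective (P : Polytope E) : Function.Injective (vface P) := by
  intro v w h
  have := congrArg Subtype.val h
  simp only [vface] at this
  exact Subtype.ext (Set.singleton_injective this)

lemma mem_iff_vface (P : Polytope E) (v : P.verts) (F : P.Face) : v.1 ∈ F.1 ↔ vface P v ≤ F := by
  constructor
  · intro h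
    change ({v.1} : Set E) ⊆ F.1
    simpa using h
  · intro h
    exact h rfl

lemma adj_of_adj {P : Polytope E} {Q : Polytope E'} (f : P.Face ≃o Q.Face)
    (s : P.verts → Q.verts) (hs : ∀ v, f (vface P v) = vface Q (s v))
    (hsurj : Function.Surjective s) (v w : P.verts) (h : P.edgeGraph.Adj v w) :
    Q.edgeGraph.Adj (s v) (s w) := by
  obtain ⟨hvw, hexp⟩ := h
  have hinj : Function.Injective s := by
    intro a b hab
    apply vface_injective P
    apply f.injective
    rw [hs, hs, hab]
  refine ⟨fun h => hvw (hinj h), ?_⟩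
  set S : P.Face := ⟨segment ℝ v.1 w.1, hexp⟩ with hS
  have hmem : ∀ u : P.verts, u.1 ∈ segment ℝ v.1 w.1 ↔ (u = v ∨ u = w) := by
    intro u
    constructor
    · intro hu
      by_cases h1 : u = v
      · left; exact h1
      by_cases h2 : u = w
      · right; exact h2
      exfalso
      have huo : u.1 ∈ openSegment ℝ v.1 w.1 := by
        apply mem_openSegment_of_ne_left_right _ _ hu
        · exact fun h => h1 (Subtype.ext h.symm)
        · exact fun h => h2 (Subtype.ext h.symm)
      have hext : u.1 ∈ (convexHull ℝ (P.verts : Set E)).extremePoints ℝ := by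
        rw [← P.extreme]; exact Finset.mem_coe.mpr u.2
      have := hext.2 (subset_convexHull ℝ _ (Finset.mem_coe.mpr v.2))
        (subset_convexHull ℝ _ (Finset.mem_coe.mpr w.2)) huo
      exact h1 (Subtype.ext this.symm)
    · rintro (rfl | rfl)
      · exact left_mem_segment ℝ _ _
      · exact right_mem_segment ℝ _ _
  have hfS : (f S).1 = segment ℝ (s v).1 (s w).1 := by
    rw [face_eq_hull (f S).2, ← convexHull_pair]
    congr 1
    ext u'
    constructor
    · rintro ⟨hu', huS⟩
      obtain ⟨u, hu⟩ := hsurj ⟨u', hu'⟩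
      have h1 : vface Q (s u) ≤ f S := by
        rw [← mem_iff_vface, hu]; exact huS
      rw [← hs, f.le_iff_le, ← mem_iff_vface] at h1
      rcases (hmem u).mp h1 with h2 | h2
      · left
        have := congrArg Subtype.val hu
        rw [h2] at this
        exact this.symm
      · right
        have := congrArg Subtype.val hu
        rw [h2] at this
        exact this.symm
    · intro hu'
      have h1 : ∀ x : P.verts, x.1 ∈ segment ℝ v.1 w.1 → (s x).1 ∈ (f S).1 := by
        intro x hx
        rw [mem_iff_vface, ← hs, f.le_iff_le, ← mem_iff_vface]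
        exact hx
      rcases hu' with h2 | h2
      · rw [h2]
        exact ⟨(s v).2, h1 v (left_mem_segment ℝ _ _)⟩
      · have h2' : u' = (s w).1 := h2
        rw [h2']
        exact ⟨(s w).2, h1 w (right_mem_segment ℝ _ _)⟩
  rw [← hfS]
  exact (f S).2

/-- combinatorially equivalent polytopes have isomorphic edge-graphs -/
theorem graph_iso {P : Polytope E} {Q : Polytope E'} (h : CombEquiv P Q) :
    Nonempty (P.edgeGraph ≃g Q.edgeGraph) := by
  obtain ⟨f⟩ := h
  choose s hs using exists_vmap f
  choose t ht using exists_vmap f.symm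
  have hst : ∀ w, s (t w) = w := by
    intro w
    apply vface_injective Q
    rw [← hs, ← ht, f.apply_symm_apply]
  have hts : ∀ v, t (s v) = v := by
    intro v
    apply vface_injective P
    rw [← ht, ← hs, f.symm_apply_apply]
  refine ⟨⟨⟨s, t, hts, hst⟩, ?_⟩⟩
  intro v w
  constructor
  · intro h
    have := adj_of_adj f.symm t ht (fun v => ⟨s v, hts v⟩) (s v) (s w) h
    rw [hts, hts] at this
    exact this
  · intro h
    exact adj_of_adj f s hs (fun w => ⟨t w, hst w⟩) v w h

end

end PM8
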