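import Pool.Agent.V11151.PM.Sym
import Pool.Agent.V11151.PM.Comb

set_option autoImplicit false
set_option linter.unusedSectionVars false

namespace PM8

open Module
open scoped InnerProductSpace

/-- a spanning configuration with the Gram matrix of the table -/
structure Conf {E : Type*} [NormedAddCommGroup E] [InnerProductSpace ℝ E] (z : Fin 105 → E) :
    Prop where
  gram : ∀ i j, ⟪z i, z j⟫_ℝ = (inter i j : ℝ) - 8 / 7
  span : Submodule.span ℝ (Set.range z) = ⊤

section

variable {E : Type*} [NormedAddCommGroup E] [InnerProductSpace ℝ E] [FiniteDimensional ℝ E]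
  {z : Fin 105 → E}

lemma Conf.ext (hz : Conf z) {x y : E} (h : ∀ k, ⟪x, z k⟫_ℝ = ⟪y, z k⟫_ℝ) : x = y := by
  have h1 : ∀ w : E, ⟪x - y, w⟫_ℝ = 0 := by
    intro w
    have hw : w ∈ Submodule.span ℝ (Set.range z) := by rw [hz.span]; trivial
    induction hw using Submodule.span_induction with
    | mem w hw =>
      obtain ⟨k, rfl⟩ := hw
      rw [inner_sub_left, h, sub_self]
    | zero => simp
    | add a b _ _ ha hb => rw [inner_add_right, ha, hb, add_zero]
    | smul c a _ ha => rw [inner_smul_right, ha, mul_zero]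
  have := h1 (x - y)
  rw [inner_self_eq_zero] at this
  exact sub_eq_zero.mp this

lemma Conf.norm_sq (hz : Conf z) (i : Fin 105) : ⟪z i, z i⟫_ℝ = 48 / 7 := by
  rw [hz.gram, chk_self]; norm_num

lemma Conf.sum_zero (hz : Conf z) : ∑ i, z i = 0 := by
  apply hz.ext
  intro k
  rw [sum_inner, inner_zero_left]
  rw [Finset.sum_congr rfl (fun i _ => hz.gram i k)]
  rw [Finset.sum_sub_distrib]
  have h1 : ∑ i : Fin 105, (inter i k : ℝ) = 120 := by
    have := g_row k
    have h2 : ((∑ i : Fin 105, inter k i : ℕ) : ℝ) = 120 := by rw [this]; norm_num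
    rw [Nat.cast_sum] at h2
    rw [← h2]
    exact Finset.sum_congr rfl (fun i _ => by rw [inter_comm])
  rw [h1]
  simp
  norm_num

lemma Conf.injective (hz : Conf z) : Function.Injective z := by
  intro i j hij
  have h1 := hz.gram i j
  rw [hij, hz.norm_sq] at h1
  by_contra hne
  have h2 := g_lt i j hne
  have h3 : (inter i j : ℝ) < 8 := by exact_mod_cast h2
  linarith

lemma Conf.quad (hz : Conf z) {i j k l : Fin 105} (h : Quad i j k l) : z i + z j = z k + z l := by
  obtain ⟨h1, h2, h3, h4, h5, h6⟩ := h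
  have hn : ⟪z i + z j - (z k + z l), z i + z j - (z k + z l)⟫_ℝ = 0 := by
    simp only [inner_sub_left, inner_sub_right, inner_add_left, inner_add_right, hz.gram]
    rw [inter_comm j i, inter_comm l k, inter_comm k i, inter_comm l i, inter_comm k j,
      inter_comm l j, h1, h2, h3, h4, h5, h6]
    simp only [chk_self]
    norm_num
  rw [inner_self_eq_zero] at hn
  exact sub_eq_zero.mp hn

/-- symmetries of the Gram matrix are realised by isometries -/
lemma Conf.exists_iso (hz : Conf z) (σ : Equiv.Perm (Fin 105))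
    (hσ : ∀ i j, inter (σ i) (σ j) = inter i j) :
    ∃ L : E ≃ₗᵢ[ℝ] E, ∀ i, L (z i) = z (σ i) := by
  classical
  let T : (Fin 105 → ℝ) →ₗ[ℝ] E := Fintype.linearCombination ℝ z
  let T' : (Fin 105 → ℝ) →ₗ[ℝ] E := Fintype.linearCombination ℝ (fun i => z (σ i))
  have hT : ∀ c, T c = ∑ i, c i • z i := fun c => Fintype.linearCombination_apply ℝ z c
  have hT' : ∀ c, T' c = ∑ i, c i • z (σ i) := fun c =>
    Fintype.linearCombination_apply ℝ (fun i => z (σ i)) c
  have hsurj : LinearMap.range T = ⊤ := by
    rw [← hz.span]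
    exact Fintype.range_linearCombination ℝ z
  obtain ⟨R, hR⟩ := T.exists_rightInverse_of_surjective hsurj
  have hRT : ∀ x, T (R x) = x := fun x => by
    have := congrArg (fun f : E →ₗ[ℝ] E => f x) hR
    simpa using this
  have hnorm : ∀ c, ‖T' c‖ = ‖T c‖ := by
    intro c
    have h1 : ⟪T' c, T' c⟫_ℝ = ⟪T c, T c⟫_ℝ := by
      rw [hT, hT', sum_inner, sum_inner]
      apply Finset.sum_congr rfl
      intro i _
      rw [inner_sum, inner_sum]
      apply Finset.sum_congr rfl
      intro j _
      simp only [inner_smul_left, inner_smul_right, hz.gram, hσ]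
    rw [real_inner_self_eq_norm_sq, real_inner_self_eq_norm_sq] at h1
    exact (sq_eq_sq₀ (norm_nonneg _) (norm_nonneg _)).mp h1
  let L0 : E →ₗᵢ[ℝ] E :=
    { toLinearMap := T' ∘ₗ R
      norm_map' := by
        intro x
        rw [LinearMap.comp_apply, hnorm, hRT] }
  have hL0 : ∀ i, L0 (z i) = z (σ i) := by
    intro i
    have h1 : T (R (z i) - Pi.single i 1) = 0 := by
      rw [map_sub, hRT, hT]
      simp [Pi.single_apply]
    have h2 : T' (R (z i) - Pi.single i 1) = 0 := by
      rw [← norm_eq_zero, hnorm, h1, norm_zero]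
    rw [map_sub, sub_eq_zero] at h2
    change T' (R (z i)) = _
    rw [h2, hT']
    simp [Pi.single_apply]
  refine ⟨L0.toLinearIsometryEquiv rfl, ?_⟩
  intro i
  exact hL0 i

lemma Conf.frame (hz : Conf z) (x : E) : ∑ i, ⟪z i, x⟫_ℝ • z i = (36 : ℝ) • x := by
  have hx : x ∈ Submodule.span ℝ (Set.range z) := by rw [hz.span]; trivial
  induction hx using Submodule.span_induction with
  | mem x hx =>
    obtain ⟨k, rfl⟩ := hx
    apply hz.ext
    intro m
    rw [sum_inner, inner_smul_left, hz.gram]
    have h1 : ∀ i, ⟪⟪z i, z k⟫_ℝ • z i, z m⟫_ℝ =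
        (inter k i : ℝ) * (inter i m : ℝ) - 8 / 7 * (inter k i : ℝ) - 8 / 7 * (inter m i : ℝ) + 64 / 49 := by
      intro i
      rw [inner_smul_left, hz.gram, hz.gram, inter_comm k i, inter_comm m i]
      simp only [conj_trivial]
      ring
    rw [Finset.sum_congr rfl (fun i _ => h1 i), Finset.sum_add_distrib, Finset.sum_sub_distrib,
      Finset.sum_sub_distrib, ← Finset.mul_sum, ← Finset.mul_sum]
    have e1 : ∑ i : Fin 105, (inter k i : ℝ) * (inter i m : ℝ) = 36 * (inter k m : ℝ) + 96 := by
      have := g_sq k m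
      have h2 : ((∑ i : Fin 105, inter k i * inter i m : ℕ) : ℝ) = ((36 * inter k m + 96 : ℕ) : ℝ) := by
        rw [this]
      rw [Nat.cast_sum] at h2
      push_cast at h2
      exact h2
    have e2 : ∀ k, ∑ i : Fin 105, (inter k i : ℝ) = 120 := by
      intro k
      have h2 : ((∑ i : Fin 105, inter k i : ℕ) : ℝ) = 120 := by rw [g_row k]; norm_num
      rw [Nat.cast_sum] at h2
      exact h2
    rw [e1, e2, e2]
    simp
    ring
  | zero => simp
  | add a b _ _ ha hb =>
    simp only [inner_add_right, add_smul, Finset.sum_add_distrib, smul_add]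
    rw [ha, hb]
  | smul c a _ ha =>
    simp only [inner_smul_right, mul_smul]
    rw [← Finset.smul_sum, ha, smul_comm]

lemma Conf.dim (hz : Conf z) : finrank ℝ E = 20 := by
  have h1 : ∀ x : E, ∑ i, ⟪z i, x⟫_ℝ ^ 2 = 36 * ⟪x, x⟫_ℝ := by
    intro x
    have := congrArg (fun y => ⟪y, x⟫_ℝ) (hz.frame x)
    simp only [sum_inner, inner_smul_left, conj_trivial] at this
    rw [← this]
    apply Finset.sum_congr rfl
    intro i _
    ring
  let b := stdOrthonormalBasis ℝ E
  have h2 : ∑ k, ∑ i, ⟪z i, b k⟫_ℝ ^ 2 = 36 * (finrank ℝ E : ℝ) := by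
    rw [Finset.sum_congr rfl (fun k _ => h1 (b k))]
    have : ∀ k, ⟪b k, b k⟫_ℝ = 1 := by
      intro k
      rw [real_inner_self_eq_norm_sq, b.norm_eq_one]; norm_num
    rw [Finset.sum_congr rfl (fun k _ => by rw [this k])]
    simp
    ring
  have h3 : ∀ i, ∑ k, ⟪z i, b k⟫_ℝ ^ 2 = 48 / 7 := by
    intro i
    rw [← hz.norm_sq i]
    have := b.sum_inner_mul_inner (z i) (z i)
    rw [← this]
    apply Finset.sum_congr rfl
    intro k _
    rw [real_inner_comm (z i) (b k)]
    ring
  rw [Finset.sum_comm, Finset.sum_congr rfl (fun i _ => h3 i)] at h2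
  simp at h2
  have h4 : (finrank ℝ E : ℝ) = 20 := by linarith
  exact_mod_cast h4

end

/-- the ambient matrices -/
noncomputable def y0 (i : Fin 105) : EuclideanSpace ℝ (Fin 8 × Fin 8) :=
  WithLp.toLp 2 (fun ab => (if mf i ab.1 = ab.2 then (1 : ℝ) else 0) -
    (if ab.1 = ab.2 then 0 else 1 / 7))

lemma gram_y0 (i j : Fin 105) : ⟪y0 i, y0 j⟫_ℝ = (inter i j : ℝ) - 8 / 7 := by
  rw [PiLp.inner_apply]
  simp only [y0, RCLike.inner_apply, conj_trivial]
  rw [Fintype.sum_prod_type]
  have h : ∀ a : Fin 8, ∑ b : Fin 8, ((if mf j a = b then (1 : ℝ) else 0) - (if a = b then 0 else 1 / 7)) *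
      ((if mf i a = b then (1 : ℝ) else 0) - (if a = b then 0 else 1 / 7)) =
      (if mf i a = mf j a then 1 else 0) - 1 / 7 := by
    intro a
    have h1 : ∀ b : Fin 8, ((if mf j a = b then (1 : ℝ) else 0) - (if a = b then 0 else 1 / 7)) *
      ((if mf i a = b then (1 : ℝ) else 0) - (if a = b then 0 else 1 / 7)) =
      (if mf j a = b then (if mf i a = mf j a then (1 : ℝ) else 0) else 0) -
      (if mf j a = b then (1 / 7 : ℝ) else 0) - (if mf i a = b then (1 / 7 : ℝ) else 0) +
      (1 / 49 - if a = b then (1 / 49 : ℝ) else 0) := by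
      intro b
      have hni := chk_ne i a
      have hnj := chk_ne j a
      by_cases hab : a = b
      · subst hab
        simp [hni, hnj]
      · by_cases hjb : mf j a = b
        · subst hjb
          simp only [if_neg hab, if_true]
          by_cases hij : mf i a = mf j a
          · simp only [hij, if_true]; norm_num
          · simp only [hij, if_false]; norm_num
        · by_cases hib : mf i a = b
          · simp only [if_neg hab, if_neg hjb, hib, if_true]; norm_num
          · simp only [if_neg hab, if_neg hjb, if_neg hib]; norm_num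
    rw [Finset.sum_congr rfl (fun b _ => h1 b), Finset.sum_add_distrib, Finset.sum_sub_distrib,
      Finset.sum_sub_distrib, Finset.sum_sub_distrib]
    simp
    norm_num
  rw [Finset.sum_congr rfl (fun a _ => h a), Finset.sum_sub_distrib]
  unfold inter
  rw [Finset.sum_boole]
  simp
  norm_num

theorem exists_conf : ∃ z : Fin 105 → EuclideanSpace ℝ (Fin 20), Conf z := by
  let U : Submodule ℝ (EuclideanSpace ℝ (Fin 8 × Fin 8)) := Submodule.span ℝ (Set.range y0)
  let zU : Fin 105 → U := fun i => ⟨y0 i, Submodule.subset_span ⟨i, rfl⟩⟩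
  have hU : Conf zU := by
    constructor
    · intro i j
      rw [Submodule.coe_inner]
      exact gram_y0 i j
    · rw [eq_top_iff]
      rintro ⟨x, hx⟩ _
      have hx' : x ∈ Submodule.span ℝ (Set.range y0) := hx
      induction hx' using Submodule.span_induction with
      | mem x h =>
        obtain ⟨i, rfl⟩ := h
        exact Submodule.subset_span ⟨i, rfl⟩
      | zero => exact Submodule.zero_mem _
      | add a b ha hb ha' hb' =>
        exact Submodule.add_mem _ (ha' ha trivial) (hb' hb trivial)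
      | smul c a ha ha' =>
        exact Submodule.smul_mem _ c (ha' ha trivial)
  have hdim := hU.dim
  let L : U ≃ₗᵢ[ℝ] EuclideanSpace ℝ (Fin 20) :=
    ((stdOrthonormalBasis ℝ U).reindex (finCongr hdim)).repr
  refine ⟨fun i => L (zU i), ?_, ?_⟩
  · intro i j
    rw [L.inner_map_map]
    exact hU.gram i j
  · have h1 : Set.range (fun i => L (zU i)) = L '' (Set.range zU) := by
      rw [← Set.range_comp]; rfl
    rw [h1]
    have h2 := (Submodule.map_span (L.toLinearEquiv : U →ₗ[ℝ] EuclideanSpace ℝ (Fin 20)) (Set.range zU))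
    have h3 : (L.toLinearEquiv : U →ₗ[ℝ] EuclideanSpace ℝ (Fin 20)) '' (Set.range zU) = L '' (Set.range zU) := rfl
    rw [h3] at h2
    rw [← h2, hU.span, Submodule.map_top, LinearEquiv.range]

end PM8
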