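import Pool.Agent.V11151.PM.Chk2

set_option autoImplicit false
set_option linter.unusedSectionVars false

namespace PM8

open Module

lemma ind (i j : Fin 105) : (if i ≠ j ∧ Hb i j = false then (1 : ℝ) else 0) =
    1 + (if i = j then 1 else 0) - (if pt j = pt i then 1 else 0) - (if pl j = pl i then 1 else 0) := by
  by_cases hij : i = j
  · subst hij
    simp
  · by_cases h1 : pt j = pt i
    · have h2 : pl j ≠ pl i := fun h => hij (chk_ptpl i j h1.symm h.symm)
      have hb : Hb i j = true := by simp [Hb, hij, h1]
      simp [hij, h1, h2, hb]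
    · by_cases h2 : pl j = pl i
      · have hb : Hb i j = true := by simp [Hb, hij, h2]
        simp [hij, h1, h2, hb]
      · have hb : Hb i j = false := by
          have h1' : pt i ≠ pt j := fun h => h1 h.symm
          have h2' : pl i ≠ pl j := fun h => h2 h.symm
          simp [Hb, hij, h1', h2']
        simp [hij, h1, h2, hb]

/-- sum over the flags at a point -/
noncomputable def XF (F : Fin 105 → ℝ) (p : Fin 16) : ℝ := ∑ j, if pt j = p then F j else 0
/-- sum over the flags at a plane -/
noncomputable def YF (F : Fin 105 → ℝ) (l : Fin 16) : ℝ := ∑ j, if pl j = l then F j else 0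

lemma Asum (F : Fin 105 → ℝ) (i : Fin 105) :
    ∑ j, (if i ≠ j ∧ Hb i j = false then (1 : ℝ) else 0) * F j =
      (∑ j, F j) + F i - XF F (pt i) - YF F (pl i) := by
  have h : ∀ j, (if i ≠ j ∧ Hb i j = false then (1 : ℝ) else 0) * F j =
      F j + (if i = j then F j else 0) - (if pt j = pt i then F j else 0) -
        (if pl j = pl i then F j else 0) := by
    intro j
    rw [ind]
    split_ifs <;> ring
  rw [Finset.sum_congr rfl (fun j _ => h j)]
  rw [Finset.sum_sub_distrib, Finset.sum_sub_distrib, Finset.sum_add_distrib]
  simp [XF, YF]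

lemma sumX (F : Fin 105 → ℝ) : ∑ p, XF F p = ∑ j, F j := by
  unfold XF
  rw [Finset.sum_comm]
  apply Finset.sum_congr rfl
  intro j _
  simp

lemma sumY (F : Fin 105 → ℝ) : ∑ p, YF F p = ∑ j, F j := by
  unfold YF
  rw [Finset.sum_comm]
  apply Finset.sum_congr rfl
  intro j _
  simp

lemma sum_inc (g : Fin 16 → ℝ) (p : Fin 16) :
    (∑ i, if pt i = p then g (pl i) else 0) = ∑ l, (incT p l : ℝ) * g l := by
  have h : ∀ i, (if pt i = p then g (pl i) else 0) = ∑ l, if pt i = p ∧ pl i = l then g l else 0 := by
    intro i
    by_cases hp : pt i = p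
    · simp [hp]
    · simp [hp]
  rw [Finset.sum_congr rfl (fun i _ => h i), Finset.sum_comm]
  apply Finset.sum_congr rfl
  intro l _
  rw [← chk_incT p l, ← Finset.sum_filter, Finset.sum_const, nsmul_eq_mul]

theorem inj_ne_one (θ : ℝ) (hθ : θ ≠ 1) (F : Fin 105 → ℝ)
    (hF : ∀ i, ∑ j, (if i ≠ j ∧ Hb i j = false then (1 : ℝ) else 0) * F j = θ * F i)
    (hX : ∀ p, XF F p = 0) : F = 0 := by
  have hS : ∑ j, F j = 0 := by
    rw [← sumX]; exact Finset.sum_eq_zero (fun p _ => hX p)
  have h1 : ∀ i, (1 - θ) * F i = YF F (pl i) := by
    intro i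
    have := hF i
    rw [Asum, hS, hX] at this
    linarith
  have hY0 : YF F 0 = 0 := by
    unfold YF
    apply Finset.sum_eq_zero
    intro j _
    rw [if_neg (chk_pl0 j)]
  have hinc : ∀ p, ∑ l, (incT p l : ℝ) * YF F l = 0 := by
    intro p
    rw [← sum_inc]
    have : ∀ i, (if pt i = p then YF F (pl i) else 0) = (1 - θ) * (if pt i = p then F i else 0) := by
      intro i
      rw [← h1]
      split_ifs <;> ring
    rw [Finset.sum_congr rfl (fun i _ => this i), ← Finset.mul_sum]
    have h2 := hX p
    unfold XF at h2
    rw [h2, mul_zero]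
  have hYl : ∀ l, l ≠ 0 → YF F l = 0 := by
    intro l hl
    have h2 : ∑ j ∈ Finset.univ.filter (fun j : Fin 105 => pl j = l),
        ∑ l', (incT (pt j) l' : ℝ) * YF F l' = 0 := Finset.sum_eq_zero (fun j _ => hinc (pt j))
    rw [Finset.sum_comm] at h2
    have h3 : ∀ l', ∑ j ∈ Finset.univ.filter (fun j : Fin 105 => pl j = l),
        (incT (pt j) l' : ℝ) * YF F l' =
        (if l' = 0 then 0 else if l = l' then 7 else 3) * YF F l' := by
      intro l'
      rw [← Finset.sum_mul]
      congr 1
      have := chk_c l l' hl
      have h4 : ((∑ j ∈ Finset.univ.filter (fun j : Fin 105 => pl j = l), incT (pt j) l' : ℕ) : ℝ) =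
        ((if l' = 0 then 0 else if l = l' then 7 else 3 : ℕ) : ℝ) := by rw [this]
      rw [Nat.cast_sum] at h4
      rw [h4]
      split_ifs <;> norm_num
    rw [Finset.sum_congr rfl (fun l' _ => h3 l')] at h2
    have h5 : ∀ l', (if l' = 0 then (0 : ℝ) else if l = l' then 7 else 3) * YF F l' =
        3 * YF F l' + 4 * (if l = l' then YF F l' else 0) := by
      intro l'
      by_cases h0 : l' = 0
      · rw [if_pos h0, h0, hY0, if_neg hl]; ring
      · rw [if_neg h0]
        split_ifs <;> ring
    rw [Finset.sum_congr rfl (fun l' _ => h5 l'), Finset.sum_add_distrib, ← Finset.mul_sum,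
      ← Finset.mul_sum, sumY, hS] at h2
    simp at h2
    exact h2
  funext i
  have := h1 i
  rw [hYl _ (chk_pl0 i)] at this
  rcases mul_eq_zero.mp this with h | h
  · exact absurd (by linarith) hθ
  · exact h

/-- the eigenspaces of a graph isomorphic to the graph of the table do not have dimension 20 -/
theorem eigdim {W : Type*} [Fintype W] [DecidableEq W] (G : SimpleGraph W) [DecidableRel G.Adj]
    (ψ : Fin 105 ≃ W) (hψ : ∀ i j, G.Adj (ψ i) (ψ j) ↔ (i ≠ j ∧ Hb i j = false)) (θ : ℝ) :
    finrank ℝ (Module.End.eigenspace (Matrix.toLin' (G.adjMatrix ℝ)) θ) ≠ 20 := by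
  classical
  have hmul : ∀ (f : W → ℝ) (i : Fin 105), (Matrix.toLin' (G.adjMatrix ℝ)) f (ψ i) =
      ∑ j, (if i ≠ j ∧ Hb i j = false then (1 : ℝ) else 0) * f (ψ j) := by
    intro f i
    rw [Matrix.toLin'_apply, Matrix.mulVec, dotProduct, ← Equiv.sum_comp ψ]
    apply Finset.sum_congr rfl
    intro j _
    rw [SimpleGraph.adjMatrix_apply]
    congr 1
    by_cases h : i ≠ j ∧ Hb i j = false
    · rw [if_pos h, if_pos ((hψ i j).mpr h)]
    · rw [if_neg h, if_neg (fun h' => h ((hψ i j).mp h'))]
  intro h20
  by_cases hθ : θ = 1
  · -- large eigenspace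
    let L : (Fin 105 → ℝ) →ₗ[ℝ] ((Fin 16 → ℝ) × (Fin 16 → ℝ)) :=
      { toFun := fun F => (XF F, YF F)
        map_add' := by
          intro F F'
          ext p
          · simp only [XF, Prod.fst_add, Pi.add_apply, ← Finset.sum_add_distrib]
            apply Finset.sum_congr rfl
            intro j _
            split_ifs <;> simp
          · simp only [YF, Prod.snd_add, Pi.add_apply, ← Finset.sum_add_distrib]
            apply Finset.sum_congr rfl
            intro j _
            split_ifs <;> simp
        map_smul' := by
          intro c F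
          ext p
          · simp only [XF, Prod.smul_fst, Pi.smul_apply, smul_eq_mul, RingHom.id_apply,
              Finset.mul_sum]
            apply Finset.sum_congr rfl
            intro j _
            split_ifs <;> simp
          · simp only [YF, Prod.smul_snd, Pi.smul_apply, smul_eq_mul, RingHom.id_apply,
              Finset.mul_sum]
            apply Finset.sum_congr rfl
            intro j _
            split_ifs <;> simp }
    have hk : 73 ≤ finrank ℝ (LinearMap.ker L) := by
      have h1 := LinearMap.finrank_range_add_finrank_ker L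
      have h2 := Submodule.finrank_le (LinearMap.range L)
      have h3 : finrank ℝ ((Fin 16 → ℝ) × (Fin 16 → ℝ)) = 32 := by simp
      have h4 : finrank ℝ (Fin 105 → ℝ) = 105 := by simp
      omega
    -- inject the kernel into the eigenspace
    let J : LinearMap.ker L →ₗ[ℝ] (Module.End.eigenspace (Matrix.toLin' (G.adjMatrix ℝ)) θ) :=
      { toFun := fun F => ⟨fun w => F.1 (ψ.symm w), by
          rw [Module.End.mem_eigenspace_iff]
          funext w
          obtain ⟨i, rfl⟩ := ψ.surjective w
          rw [hmul]
          simp only [Equiv.symm_apply_apply, Pi.smul_apply, smul_eq_mul]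
          rw [Asum]
          have hF := F.2
          rw [LinearMap.mem_ker] at hF
          have hX : XF F.1 = 0 := congrArg Prod.fst hF
          have hY : YF F.1 = 0 := congrArg Prod.snd hF
          have hS : ∑ j, F.1 j = 0 := by
            rw [← sumX, hX]; simp
          rw [hS, hX, hY, hθ]
          simp⟩
        map_add' := by intro F F'; rfl
        map_smul' := by intro c F; rfl }
    have hJ : Function.Injective J := by
      intro F F' h
      apply Subtype.ext
      funext i
      have := congrFun (congrArg Subtype.val h) (ψ i)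
      simpa [J] using this
    have := LinearMap.finrank_le_finrank_of_injective hJ
    omega
  · -- small eigenspaces
    let L : (Module.End.eigenspace (Matrix.toLin' (G.adjMatrix ℝ)) θ) →ₗ[ℝ] (Fin 16 → ℝ) :=
      { toFun := fun f => XF (fun i => f.1 (ψ i))
        map_add' := by
          intro F F'
          ext p
          simp only [XF, Pi.add_apply, ← Finset.sum_add_distrib]
          apply Finset.sum_congr rfl
          intro j _
          split_ifs <;> simp
        map_smul' := by
          intro c F
          ext p
          simp only [XF, Pi.smul_apply, smul_eq_mul, RingHom.id_apply, Finset.mul_sum]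
          apply Finset.sum_congr rfl
          intro j _
          split_ifs <;> simp }
    have hL : Function.Injective L := by
      rw [injective_iff_map_eq_zero]
      intro f hf
      have h1 : (fun i => f.1 (ψ i)) = 0 := by
        apply inj_ne_one θ hθ
        · intro i
          rw [← hmul]
          have := Module.End.mem_eigenspace_iff.mp f.2
          rw [this]
          rfl
        · intro p
          exact congrFun hf p
      apply Subtype.ext
      funext w
      obtain ⟨i, rfl⟩ := ψ.surjective w
      exact congrFun h1 i
    have h1 := LinearMap.finrank_le_finrank_of_injective hL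
    have h2 : finrank ℝ (Fin 16 → ℝ) = 16 := by simp
    omega

end PM8
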