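import Pool.Agent.V11151.PM.Spec
import Pool.Agent.V11151.PM.Conf
import Pool.Agent.V11151.PM.Eig

set_option autoImplicit false
set_option linter.unusedSectionVars false

namespace PM8

open Module
open scoped InnerProductSpace

section

variable {E : Type} [NormedAddCommGroup E] [InnerProductSpace ℝ E] [FiniteDimensional ℝ E]
  {z : Fin 105 → E}

open Classical in
/-- the vertex set -/
noncomputable def VS (z : Fin 105 → E) : Finset E := Finset.univ.image z

lemma mem_VS {x : E} : x ∈ VS z ↔ ∃ i, z i = x := by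
  classical
  simp [VS]

/-- exposing a set of vertices by a vector -/
lemma exposed_of {x : E} {c : ℝ} (h : ∀ i, ⟪x, z i⟫_ℝ ≤ c) {T : Set E}
    (hT : ∀ i, ⟪x, z i⟫_ℝ = c → z i ∈ T) (hT2 : T.Nonempty)
    (hT3 : ∀ y ∈ T, y ∈ VS z ∧ ⟪x, y⟫_ℝ = c) :
    IsExposed ℝ (convexHull ℝ (VS z : Set E)) (convexHull ℝ T) := by
  let l : E →ₗ[ℝ] ℝ := (innerSL ℝ x).toLinearMap
  have hl : ∀ y, l y = ⟪x, y⟫_ℝ := fun y => rfl
  have hne : (convexHull ℝ T).Nonempty := convexHull_nonempty_iff.mpr hT2
  rw [exposed_iff hne]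
  have hb : ∀ v ∈ VS z, l v ≤ c := by
    intro v hv
    obtain ⟨i, rfl⟩ := mem_VS.mp hv
    rw [hl]; exact h i
  refine ⟨l, c, hb, ?_⟩
  apply Set.Subset.antisymm
  · have hconv : Convex ℝ {y : E | y ∈ convexHull ℝ (VS z : Set E) ∧ l y = c} :=
      (convex_convexHull ℝ _).inter (convex_hyperplane l.isLinear c)
    apply convexHull_min _ hconv
    intro y hy
    exact ⟨subset_convexHull ℝ _ (Finset.mem_coe.mpr (hT3 y hy).1), (hT3 y hy).2⟩
  · rintro y ⟨hy1, hy2⟩
    refine convexHull_mono ?_ (hull_eq hb y hy1 hy2)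
    rintro v ⟨hv, hvc⟩
    obtain ⟨i, rfl⟩ := mem_VS.mp hv
    exact hT i hvc

lemma vert_exposed (hz : Conf z) (i : Fin 105) :
    IsExposed ℝ (convexHull ℝ (VS z : Set E)) {z i} := by
  have h := exposed_of (z := z) (x := z i) (c := 48 / 7) (T := {z i}) (by
    intro j
    by_cases hij : i = j
    · rw [← hij, hz.norm_sq]
    · rw [hz.gram]
      have h2 : (inter i j : ℝ) < 8 := by exact_mod_cast g_lt i j hij
      linarith) (by
    intro j hj
    by_cases hij : i = j
    · rw [hij]; rfl
    · rw [hz.gram] at hj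
      have h2 : (inter i j : ℝ) < 8 := by exact_mod_cast g_lt i j hij
      linarith) (Set.singleton_nonempty _) (by
    intro y hy
    rw [Set.mem_singleton_iff] at hy
    rw [hy]
    exact ⟨mem_VS.mpr ⟨i, rfl⟩, hz.norm_sq i⟩)
  rw [convexHull_singleton] at h
  exact h

lemma extreme_VS (hz : Conf z) :
    (VS z : Set E) = (convexHull ℝ (VS z : Set E)).extremePoints ℝ := by
  apply Set.Subset.antisymm
  · intro x hx
    obtain ⟨i, rfl⟩ := mem_VS.mp (Finset.mem_coe.mp hx)
    have h1 := (vert_exposed hz i).isExtreme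
    have h2 : z i ∈ ({z i} : Set E).extremePoints ℝ := by
      rw [extremePoints_singleton]; rfl
    exact h1.extremePoints_subset_extremePoints h2
  · exact extremePoints_convexHull_subset

/-- the perfect matching polytope -/
noncomputable def PMP (hz : Conf z) : Polytope E where
  verts := VS z
  extreme := extreme_VS hz
  full := by
    rw [interior_convexHull_nonempty_iff_affineSpan_eq_top]
    have h0 : (0 : E) ∈ affineSpan ℝ (VS z : Set E) := by
      have h1 : (0 : E) ∈ convexHull ℝ (VS z : Set E) := by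
        have h2 : (Finset.univ : Finset (Fin 105)).centerMass (fun _ => (1 : ℝ)) z ∈
            convexHull ℝ (VS z : Set E) := by
          apply Finset.centerMass_mem_convexHull
          · intro i _; exact zero_le_one
          · simp
          · intro i _
            exact Finset.mem_coe.mpr (mem_VS.mpr ⟨i, rfl⟩)
        rw [Finset.centerMass] at h2
        simp only [one_smul, hz.sum_zero, smul_zero] at h2
        exact h2
      exact convexHull_subset_affineSpan _ h1
    have hd : (affineSpan ℝ (VS z : Set E)).direction = ⊤ := by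
      rw [eq_top_iff, ← hz.span, Submodule.span_le]
      rintro _ ⟨i, rfl⟩
      have h1 : z i ∈ affineSpan ℝ (VS z : Set E) :=
        subset_affineSpan ℝ _ (Finset.mem_coe.mpr (mem_VS.mpr ⟨i, rfl⟩))
      have := AffineSubspace.vsub_mem_direction h1 h0
      simpa using this
    exact (AffineSubspace.direction_eq_top_iff_of_nonempty ⟨0, h0⟩).mp hd
  bary := by
    classical
    unfold VS
    rw [Finset.sum_image (fun i _ j _ h => hz.injective h)]
    exact hz.sum_zero

/-- labelling of the vertices -/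
noncomputable def lab (hz : Conf z) : Fin 105 ≃ (PMP hz).verts :=
  Equiv.ofBijective (fun i => ⟨z i, mem_VS.mpr ⟨i, rfl⟩⟩) ⟨by
    intro i j h
    exact hz.injective (congrArg Subtype.val h), by
    rintro ⟨x, hx⟩
    obtain ⟨i, rfl⟩ := mem_VS.mp hx
    exact ⟨i, rfl⟩⟩

lemma lab_val (hz : Conf z) (i : Fin 105) : ((lab hz) i).1 = z i := rfl

lemma adj_iff (hz : Conf z) (i j : Fin 105) :
    (PMP hz).edgeGraph.Adj (lab hz i) (lab hz j) ↔ (i ≠ j ∧ Hb i j = false) := by
  constructor
  · rintro ⟨hne, hexp⟩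
    have hij : i ≠ j := fun h => hne (by rw [h])
    refine ⟨hij, ?_⟩
    rw [lab_val, lab_val] at hexp
    by_contra hH
    rw [Bool.not_eq_false] at hH
    obtain ⟨k, l, hki, hkj, hli, hlj, hq⟩ := g_kl i j hH
    have hsum := hz.quad hq
    have hsne : (segment ℝ (z i) (z j)).Nonempty := ⟨z i, left_mem_segment ℝ _ _⟩
    obtain ⟨f, c, hfc, hseg⟩ := (exposed_iff (V := VS z) hsne).mp hexp
    have hi : f (z i) = c := by
      have : z i ∈ segment ℝ (z i) (z j) := left_mem_segment ℝ _ _
      rw [hseg] at this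
      exact this.2
    have hj : f (z j) = c := by
      have : z j ∈ segment ℝ (z i) (z j) := right_mem_segment ℝ _ _
      rw [hseg] at this
      exact this.2
    have hk := hfc (z k) (mem_VS.mpr ⟨k, rfl⟩)
    have hl := hfc (z l) (mem_VS.mpr ⟨l, rfl⟩)
    have hs := congrArg f hsum
    rw [map_add, map_add, hi, hj] at hs
    have hkc : f (z k) = c := by linarith
    have hkseg : z k ∈ segment ℝ (z i) (z j) := by
      rw [hseg]
      exact ⟨subset_convexHull ℝ _ (Finset.mem_coe.mpr (mem_VS.mpr ⟨k, rfl⟩)), hkc⟩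
    have hko : z k ∈ openSegment ℝ (z i) (z j) := by
      apply mem_openSegment_of_ne_left_right _ _ hkseg
      · exact fun h => hki (hz.injective h.symm)
      · exact fun h => hkj (hz.injective h.symm)
    have hext : z k ∈ (convexHull ℝ (VS z : Set E)).extremePoints ℝ := by
      rw [← extreme_VS hz]; exact Finset.mem_coe.mpr (mem_VS.mpr ⟨k, rfl⟩)
    have := hext.2 (subset_convexHull ℝ _ (Finset.mem_coe.mpr (mem_VS.mpr ⟨i, rfl⟩)))
      (subset_convexHull ℝ _ (Finset.mem_coe.mpr (mem_VS.mpr ⟨j, rfl⟩))) hko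
    exact hki (hz.injective this.symm)
  · rintro ⟨hij, hH⟩
    refine ⟨fun h => hij ((lab hz).injective h), ?_⟩
    rw [lab_val, lab_val]
    have hval : ∀ k, ⟪z i + z j, z k⟫_ℝ = (inter k i : ℝ) + (inter k j : ℝ) - 16 / 7 := by
      intro k
      rw [inner_add_left, hz.gram, hz.gram, inter_comm i k, inter_comm j k]
      ring
    have hstrict : ∀ k, k ≠ i → k ≠ j →
        ⟪z i + z j, z k⟫_ℝ < 8 + (inter i j : ℝ) - 16 / 7 := by
      intro k hki hkj
      rw [hval]
      have := g_edge i j k hij hH hki hkj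
      have h2 : (inter k i : ℝ) + (inter k j : ℝ) < 8 + (inter i j : ℝ) := by exact_mod_cast this
      linarith
    have hei : ⟪z i + z j, z i⟫_ℝ = 8 + (inter i j : ℝ) - 16 / 7 := by
      rw [hval, chk_self]; norm_num
    have hej : ⟪z i + z j, z j⟫_ℝ = 8 + (inter i j : ℝ) - 16 / 7 := by
      rw [hval, chk_self, inter_comm j i]; norm_num; ring
    have h := exposed_of (z := z) (x := z i + z j) (c := 8 + (inter i j : ℝ) - 16 / 7)
      (T := {z i, z j}) (by
        intro k
        by_cases hki : k = i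
        · rw [hki, hei]
        by_cases hkj : k = j
        · rw [hkj, hej]
        exact (hstrict k hki hkj).le) (by
        intro k hk
        by_cases hki : k = i
        · left; rw [hki]
        by_cases hkj : k = j
        · right; rw [hkj]; rfl
        exact absurd hk (hstrict k hki hkj).ne) ⟨z i, Or.inl rfl⟩ (by
        intro y hy
        rcases hy with h1 | h1
        · rw [h1]; exact ⟨mem_VS.mpr ⟨i, rfl⟩, hei⟩
        · rw [Set.mem_singleton_iff] at h1
          rw [h1]; exact ⟨mem_VS.mpr ⟨j, rfl⟩, hej⟩)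
    rw [convexHull_pair] at h
    exact h

lemma aut_of (hz : Conf z) {σ : Equiv.Perm (Fin 105)} {L : E ≃ₗᵢ[ℝ] E}
    (hL : ∀ i, L (z i) = z (σ i)) : L ∈ (PMP hz).Aut := by
  change L '' (convexHull ℝ (VS z : Set E)) = convexHull ℝ (VS z : Set E)
  have h1 : L '' (convexHull ℝ (VS z : Set E)) =
      (L.toLinearEquiv : E →ₗ[ℝ] E) '' (convexHull ℝ (VS z : Set E)) := rfl
  rw [h1, LinearMap.image_convexHull]
  congr 1
  ext x
  constructor
  · rintro ⟨y, hy, rfl⟩
    obtain ⟨i, rfl⟩ := mem_VS.mp (Finset.mem_coe.mp hy)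
    exact Finset.mem_coe.mpr (mem_VS.mpr ⟨σ i, (hL i).symm⟩)
  · intro hx
    obtain ⟨i, rfl⟩ := mem_VS.mp (Finset.mem_coe.mp hx)
    obtain ⟨j, rfl⟩ := σ.surjective i
    exact ⟨z j, Finset.mem_coe.mpr (mem_VS.mpr ⟨j, rfl⟩), hL j⟩

lemma exists_aut_trans (hz : Conf z) (i j : Fin 105) : ∃ L ∈ (PMP hz).Aut, L (z i) = z j := by
  obtain ⟨σ1, h1, _, rfl⟩ := exists_trans i
  obtain ⟨σ2, h2, _, rfl⟩ := exists_trans j
  have h3 : ∀ a b, inter ((σ1.symm.trans σ2) a) ((σ1.symm.trans σ2) b) = inter a b := by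
    intro a b
    simp only [Equiv.trans_apply]
    rw [h2, ← h1, Equiv.apply_symm_apply, Equiv.apply_symm_apply]
  obtain ⟨L, hL⟩ := hz.exists_iso _ h3
  refine ⟨L, aut_of hz hL, ?_⟩
  rw [hL]
  simp

theorem vertexTransitive (hz : Conf z) : VertexTransitive (PMP hz) := by
  intro v hv w hw
  obtain ⟨i, rfl⟩ := mem_VS.mp hv
  obtain ⟨j, rfl⟩ := mem_VS.mp hw
  exact exists_aut_trans hz i j

theorem realizes (hz : Conf z) : RealizesGraphSymmetries (PMP hz) := by
  intro φ
  let σ : Equiv.Perm (Fin 105) := ((lab hz).trans φ.toEquiv).trans (lab hz).symm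
  have hσ : ∀ i, lab hz (σ i) = φ (lab hz i) := by
    intro i
    simp only [σ, Equiv.trans_apply, Equiv.apply_symm_apply]
    rfl
  have hadj : ∀ i j, (σ i ≠ σ j ∧ Hb (σ i) (σ j) = false) ↔ (i ≠ j ∧ Hb i j = false) := by
    intro i j
    rw [← adj_iff hz, ← adj_iff hz, hσ, hσ]
    exact φ.map_rel_iff
  have hne : ∀ i j, Hb i j = true → i ≠ j := by
    rintro i j h rfl
    simp [Hb] at h
  have hH : ∀ i j, Hb (σ i) (σ j) = Hb i j := by
    intro i j
    cases h1 : Hb i j with
    | true =>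
      by_contra h2
      rw [Bool.not_eq_true] at h2
      have h3 := (hadj i j).mp ⟨fun h => hne i j h1 (σ.injective h), h2⟩
      rw [h1] at h3
      exact absurd h3.2 (by decide)
    | false =>
      by_contra h2
      rw [Bool.not_eq_false] at h2
      have h4 := hne _ _ h2
      have h3 := (hadj i j).mpr ⟨fun h => h4 (by rw [h]), h1⟩
      rw [h2] at h3
      exact absurd h3.2 (by decide)
  have hint : ∀ i j, inter (σ i) (σ j) = inter i j := by
    intro i j
    by_cases hij : i = j
    · rw [hij, chk_self, chk_self]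
    · cases h1 : Hb i j with
      | true =>
        rw [g_H i j h1, g_H _ _ (by rw [hH]; exact h1)]
      | false =>
        rw [g_cn i j hij h1, g_cn _ _ (fun h => hij (σ.injective h)) (by rw [hH]; exact h1),
          cn_sym hH]
  obtain ⟨L, hL⟩ := hz.exists_iso σ hint
  refine ⟨L, aut_of hz hL, ?_⟩
  intro v
  obtain ⟨i, rfl⟩ := (lab hz).surjective v
  rw [lab_val, hL, ← lab_val hz, hσ]

theorem irreducible (hz : Conf z) : IrreducibleAut (PMP hz) := by
  classical
  intro W hW
  have hsymm : ∀ g ∈ (PMP hz).Aut, g.symm ∈ (PMP hz).Aut := by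
    intro g hg
    change g.symm '' (PMP hz).body = (PMP hz).body
    have hg' : g '' (PMP hz).body = (PMP hz).body := hg
    conv_lhs => rw [← hg']
    rw [← Set.image_comp]
    have : (g.symm ∘ g : E → E) = id := by
      funext x; simp
    rw [this, Set.image_id]
  have hWo : ∀ g ∈ (PMP hz).Aut, ∀ x ∈ Wᗮ, g x ∈ Wᗮ := by
    intro g hg x hx
    rw [Submodule.mem_orthogonal] at hx ⊢
    intro w hw
    have h1 := hx (g.symm w) (hW _ (hsymm g hg) w hw)
    have h2 : ⟪w, g x⟫_ℝ = ⟪g.symm w, x⟫_ℝ := by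
      rw [← g.inner_map_map (g.symm w) x, g.apply_symm_apply]
    rw [h2]; exact h1
  obtain ⟨p, hp, q, hq, hpq⟩ := Submodule.exists_add_mem_mem_orthogonal (K := W) (z 0)
  have hfix : ∀ g ∈ (PMP hz).Aut, g (z 0) = z 0 → g p = p := by
    intro g hg h0
    have h1 : g p + g q = p + q := by
      rw [← map_add, ← hpq, h0]
    have h2 : g p - p = q - g q := by
      have := sub_eq_sub_iff_add_eq_add.mpr (show g p + g q = q + p by rw [h1, add_comm])
      exact this
    have h3 : g p - p ∈ W := Submodule.sub_mem _ (hW g hg p hp) hp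
    have h4 : g p - p ∈ Wᗮ := by
      rw [h2]; exact Submodule.sub_mem _ hq (hWo g hg q hq)
    have h5 : ⟪g p - p, g p - p⟫_ℝ = 0 := (Submodule.mem_orthogonal _ _).mp h4 _ h3
    rw [inner_self_eq_zero] at h5
    exact sub_eq_zero.mp h5
  let f : Fin 105 → ℝ := fun j => ⟪p, z j⟫_ℝ
  have hfrep : ∀ j, f j = f (rep j) := by
    intro j
    obtain ⟨σ, h1, h2, h3⟩ := exists_stab j
    obtain ⟨L, hL⟩ := hz.exists_iso σ h1
    have h4 := hfix L (aut_of hz hL) (by rw [hL, h2])
    change ⟪p, z j⟫_ℝ = ⟪p, z (rep j)⟫_ℝ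
    rw [← L.inner_map_map p (z j), h4, hL, h3]
  have hirep : ∀ j, inter 0 j = inter 0 (rep j) := by
    intro j
    obtain ⟨σ, h1, h2, h3⟩ := exists_stab j
    rw [← h1 0 j, h2, h3]
  have hquad : ∀ i j k l, Quad i j k l → f i + f j = f k + f l := by
    intro i j k l h
    change ⟪p, z i⟫_ℝ + ⟪p, z j⟫_ℝ = ⟪p, z k⟫_ℝ + ⟪p, z l⟫_ℝ
    rw [← inner_add_right, ← inner_add_right, hz.quad h]
  obtain ⟨q1, q2, q3, r16, r0, r1, r15, r18, r4, r3, r19, r46, r38, r31, r53, i1, i4, i16, i19⟩ :=
    chk_quads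
  have e1 := hquad _ _ _ _ q1
  have e2 := hquad _ _ _ _ q2
  have e3 := hquad _ _ _ _ q3
  rw [hfrep 15, r15] at e1
  rw [hfrep 18, r18, hfrep 3, r3] at e2
  rw [hfrep 46, r46, hfrep 38, r38, hfrep 31, r31, hfrep 53, r53] at e3
  have hsum : ∑ j, f j = 0 := by
    change ∑ j, ⟪p, z j⟫_ℝ = 0
    rw [← inner_sum, hz.sum_zero, inner_zero_right]
  obtain ⟨⟨c0, c1, c4, c16, c19⟩, hcases⟩ := chk_cnt
  have hsum2 : ∑ j, f j = f 0 + 12 * f 1 + 32 * f 4 + 12 * f 16 + 48 * f 19 := by
    have h1 : ∀ j, f j = (if rep j = 0 then f 0 else 0) + (if rep j = 1 then f 1 else 0) +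
        (if rep j = 4 then f 4 else 0) + (if rep j = 16 then f 16 else 0) +
        (if rep j = 19 then f 19 else 0) := by
      intro j
      rw [hfrep j]
      rcases hcases j with h | h | h | h | h <;> rw [h] <;> simp
    rw [Finset.sum_congr rfl (fun j _ => h1 j)]
    rw [Finset.sum_add_distrib, Finset.sum_add_distrib, Finset.sum_add_distrib,
      Finset.sum_add_distrib]
    rw [← Finset.sum_filter, ← Finset.sum_filter, ← Finset.sum_filter, ← Finset.sum_filter,
      ← Finset.sum_filter]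
    rw [Finset.sum_const, Finset.sum_const, Finset.sum_const, Finset.sum_const, Finset.sum_const,
      c0, c1, c4, c16, c19]
    simp only [nsmul_eq_mul]
    norm_num
  rw [hsum] at hsum2
  set μ : ℝ := f 1 * (7 / 20) with hμ
  have v1 : f 1 = μ * (20 / 7) := by rw [hμ]; ring
  have v19 : f 19 = μ * (-8 / 7) := by rw [hμ]; linarith
  have v16 : f 16 = μ * (-8 / 7) := by rw [hμ]; linarith
  have v0 : f 0 = μ * (48 / 7) := by rw [hμ]; linarith
  have v4 : f 4 = μ * (6 / 7) := by rw [hμ]; linarith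
  have hpz : p = μ • z 0 := by
    apply hz.ext
    intro j
    rw [inner_smul_left, hz.gram, conj_trivial, hirep j]
    change f j = _
    rw [hfrep j]
    rcases hcases j with h | h | h | h | h <;> rw [h]
    · rw [v0, chk_self]; norm_num
    · rw [v1, i1]; norm_num
    · rw [v4, i4]; norm_num
    · rw [v16, i16]; norm_num
    · rw [v19, i19]; norm_num
  by_cases hμ0 : μ = 0
  · left
    have hp0 : p = 0 := by rw [hpz, hμ0, zero_smul]
    have hz0 : z 0 ∈ Wᗮ := by
      rw [hpq, hp0, zero_add]; exact hq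
    have hall : Wᗮ = ⊤ := by
      rw [eq_top_iff, ← hz.span, Submodule.span_le]
      rintro _ ⟨i, rfl⟩
      obtain ⟨L, hL, hLi⟩ := exists_aut_trans hz 0 i
      rw [← hLi]
      exact hWo L hL _ hz0
    rw [Submodule.eq_bot_iff]
    intro x hx
    have h1 : x ∈ Wᗮ := by rw [hall]; trivial
    have h2 := (Submodule.mem_orthogonal _ _).mp h1 x hx
    exact inner_self_eq_zero.mp h2
  · right
    have hz0 : z 0 ∈ W := by
      have : z 0 = μ⁻¹ • p := by rw [hpz, smul_smul, inv_mul_cancel₀ hμ0, one_smul]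
      rw [this]
      exact Submodule.smul_mem _ _ hp
    rw [eq_top_iff, ← hz.span, Submodule.span_le]
    rintro _ ⟨i, rfl⟩
    obtain ⟨L, hL, hLi⟩ := exists_aut_trans hz 0 i
    rw [← hLi]
    exact hW L hL _ hz0

theorem not_spectral (hz : Conf z) {E' : Type} [NormedAddCommGroup E'] [InnerProductSpace ℝ E']
    [FiniteDimensional ℝ E'] (Q : Polytope E') (hPQ : CombEquiv (PMP hz) Q) : ¬ IsSpectral Q := by
  classical
  rintro ⟨θ, e, Φ, _, hli, hspan', T, _⟩
  have hdim : finrank ℝ E' = 20 := by rw [← dim_eq hPQ]; exact hz.dim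
  have he : e = 20 := by
    have := T.finrank_eq
    rw [hdim] at this
    simpa using this.symm
  obtain ⟨ι⟩ := graph_iso hPQ
  have hspan : Submodule.span ℝ (Set.range (fun (k : Fin e) (v : Q.verts) => Φ v k)) =
      Module.End.eigenspace (Matrix.toLin' (Q.edgeGraph.adjMatrix ℝ)) θ := by
    ext f
    rw [hspan', Module.End.mem_eigenspace_iff]
    have hmul : ∀ v, (Matrix.toLin' (Q.edgeGraph.adjMatrix ℝ)) f v = Q.nbrSum f v := by
      intro v
      rw [Matrix.toLin'_apply, Matrix.mulVec, dotProduct]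
      unfold Polytope.nbrSum
      apply Finset.sum_congr rfl
      intro w _
      rw [SimpleGraph.adjMatrix_apply]
      by_cases h : Q.edgeGraph.Adj v w
      · rw [if_pos h, if_pos h, one_mul]
      · rw [if_neg h, if_neg h, zero_mul]
    constructor
    · intro h
      funext v
      rw [hmul, h v]
      rfl
    · intro h v
      rw [← hmul, h]
      rfl
  have hfin : finrank ℝ (Module.End.eigenspace (Matrix.toLin' (Q.edgeGraph.adjMatrix ℝ)) θ) = 20 := by
    rw [← hspan, finrank_span_eq_card hli, Fintype.card_fin, he]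
  have hψ : ∀ i j, Q.edgeGraph.Adj (((lab hz).trans ι.toEquiv) i) (((lab hz).trans ι.toEquiv) j) ↔
      (i ≠ j ∧ Hb i j = false) := by
    intro i j
    rw [← adj_iff hz]
    exact ι.map_rel_iff
  exact eigdim Q.edgeGraph ((lab hz).trans ι.toEquiv) hψ θ hfin

end

/-- there is a polytope with (i), (ii), (iii) that is not combinatorially equivalent to any
spectral polytope -/
theorem main : ∃ P : Polytope (EuclideanSpace ℝ (Fin 20)),
    VertexTransitive P ∧ RealizesGraphSymmetries P ∧ IrreducibleAut P ∧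
    ∀ (m : ℕ) (Q : Polytope (EuclideanSpace ℝ (Fin m))), CombEquiv P Q → ¬ IsSpectral Q := by
  obtain ⟨z, hz⟩ := exists_conf
  exact ⟨PMP hz, vertexTransitive hz, realizes hz, irreducible hz,
    fun m Q h => not_spectral hz Q h⟩

end PM8
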