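import Mathlib

set_option autoImplicit false
set_option linter.unusedSectionVars false

namespace PM8

open Module

section hull

variable {E : Type*} [NormedAddCommGroup E] [NormedSpace ℝ E] [FiniteDimensional ℝ E]

lemma eps_exists' {ι : Type*} (s : Finset ι) (α β : ι → ℝ) (hα : ∀ i ∈ s, 0 < α i) :
    ∃ ε : ℝ, 0 < ε ∧ ∀ i ∈ s, ε * β i < α i := by
  classical
  induction s using Finset.induction_on with
  | empty => exact ⟨1, one_pos, by simp⟩
  | insert i s hi ih =>
    obtain ⟨ε, hε, h⟩ := ih (fun j hj => hα j (Finset.mem_insert_of_mem hj))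
    have hαi := hα i (Finset.mem_insert_self _ _)
    by_cases hb : β i ≤ 0
    · refine ⟨ε, hε, ?_⟩
      intro j hj
      rcases Finset.mem_insert.mp hj with rfl | hj
      · nlinarith
      · exact h j hj
    · push Not at hb
      have hpos : 0 < α i / β i / 2 := by positivity
      refine ⟨min ε (α i / β i / 2), lt_min hε hpos, ?_⟩
      intro j hj
      rcases Finset.mem_insert.mp hj with rfl | hj
      · calc min ε (α j / β j / 2) * β j ≤ (α j / β j / 2) * β j :=
            mul_le_mul_of_nonneg_right (min_le_right _ _) hb.le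
          _ = α j / 2 := by field_simp
          _ < α j := by linarith
      · by_cases hbj : β j ≤ 0
        · have : 0 < min ε (α i / β i / 2) := lt_min hε hpos
          have h3 := hα j (Finset.mem_insert_of_mem hj)
          nlinarith
        · push Not at hbj
          calc min ε (α i / β i / 2) * β j ≤ ε * β j :=
              mul_le_mul_of_nonneg_right (min_le_left _ _) hbj.le
            _ < α j := h j hj

lemma hull_le {V : Finset E} {l : E →ₗ[ℝ] ℝ} {c : ℝ} (h : ∀ v ∈ V, l v ≤ c) :
    ∀ x ∈ convexHull ℝ (V : Set E), l x ≤ c := by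
  intro x hx
  have hconv : Convex ℝ {x : E | l x ≤ c} := convex_halfSpace_le l.isLinear c
  exact (convexHull_min (fun v hv => h v (Finset.mem_coe.mp hv)) hconv) hx

lemma hull_eq {V : Finset E} {l : E →ₗ[ℝ] ℝ} {c : ℝ} (h : ∀ v ∈ V, l v ≤ c) :
    ∀ x ∈ convexHull ℝ (V : Set E), l x = c →
      x ∈ convexHull ℝ {v : E | v ∈ V ∧ l v = c} := by
  have hconv : Convex ℝ {x : E | l x < c ∨ (l x = c ∧ x ∈ convexHull ℝ {v : E | v ∈ V ∧ l v = c})} := by
    intro x hx y hy a b ha hb hab
    simp only [Set.mem_ofPred_eq] at hx hy ⊢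
    rw [map_add, map_smul, map_smul, smul_eq_mul, smul_eq_mul]
    have hec : c = a * c + b * c := by rw [← add_mul, hab, one_mul]
    rcases hx with hx | ⟨hx, hx'⟩ <;> rcases hy with hy | ⟨hy, hy'⟩
    · left
      rcases eq_or_lt_of_le ha with h0 | h0
      · have hb1 : b = 1 := by linarith
        rw [← h0, hb1]; linarith
      · have e1 := mul_lt_mul_of_pos_left hx h0
        have e2 := mul_le_mul_of_nonneg_left hy.le hb
        linarith
    · rcases eq_or_lt_of_le ha with h0 | h0
      · have hb1 : b = 1 := by linarith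
        right
        rw [← h0, hb1]
        simp only [zero_mul, one_mul, zero_add, zero_smul, one_smul]
        exact ⟨hy, hy'⟩
      · left
        have e1 := mul_lt_mul_of_pos_left hx h0
        rw [hy]; linarith
    · rcases eq_or_lt_of_le hb with h0 | h0
      · have hb1 : a = 1 := by linarith
        right
        rw [← h0, hb1]
        simp only [zero_mul, one_mul, add_zero, zero_smul, one_smul]
        exact ⟨hx, hx'⟩
      · left
        have e1 := mul_lt_mul_of_pos_left hy h0
        rw [hx]; linarith
    · right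
      refine ⟨by rw [hx, hy, ← add_mul, hab, one_mul], ?_⟩
      exact (convex_convexHull ℝ _) hx' hy' ha hb hab
  intro x hx hxc
  have := (convexHull_min (t := {x : E | l x < c ∨ (l x = c ∧ x ∈ convexHull ℝ {v : E | v ∈ V ∧ l v = c})})
    (fun v hv => by
      have hv' := Finset.mem_coe.mp hv
      rcases lt_or_eq_of_le (h v hv') with h1 | h1
      · left; exact h1
      · right; exact ⟨h1, subset_convexHull ℝ _ ⟨hv', h1⟩⟩) hconv) hx
  rcases this with h1 | ⟨_, h1⟩
  · exact absurd hxc h1.ne
  · exact h1

lemma exposed_iff {V : Finset E} {F : Set E} (hne : F.Nonempty) :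
    IsExposed ℝ (convexHull ℝ (V : Set E)) F ↔
      ∃ (l : E →ₗ[ℝ] ℝ) (c : ℝ), (∀ v ∈ V, l v ≤ c) ∧
        F = {x | x ∈ convexHull ℝ (V : Set E) ∧ l x = c} := by
  constructor
  · intro h
    obtain ⟨l, hl⟩ := h hne
    obtain ⟨x0, hx0⟩ := hne
    have hx0' := hx0
    rw [hl] at hx0'
    refine ⟨l.toLinearMap, l x0, ?_, ?_⟩
    · intro v hv
      exact hx0'.2 v (subset_convexHull ℝ _ (Finset.mem_coe.mpr hv))
    · rw [hl]
      ext x
      constructor
      · rintro ⟨h1, h2⟩
        exact ⟨h1, le_antisymm (hx0'.2 x h1) (h2 x0 hx0'.1)⟩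
      · rintro ⟨h1, h2⟩
        refine ⟨h1, ?_⟩
        intro y hy
        have h3 : l x = l x0 := h2
        rw [h3]
        exact hx0'.2 y hy
  · rintro ⟨l, c, hlc, hF⟩ _
    refine ⟨LinearMap.toContinuousLinearMap l, ?_⟩
    obtain ⟨x0, hx0⟩ := hne
    rw [hF] at hx0 ⊢
    ext x
    constructor
    · rintro ⟨h1, h2⟩
      refine ⟨h1, ?_⟩
      intro y hy
      change l y ≤ l x
      rw [h2]
      exact hull_le hlc y hy
    · rintro ⟨h1, h2⟩
      refine ⟨h1, le_antisymm (hull_le hlc x h1) ?_⟩
      have := h2 x0 hx0.1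
      change l x0 ≤ l x at this
      rw [hx0.2] at this
      exact this

lemma exposed_convex {V : Finset E} {F : Set E}
    (hF : IsExposed ℝ (convexHull ℝ (V : Set E)) F) : Convex ℝ F :=
  hF.convex (convex_convexHull ℝ _)

/-- a face is the hull of its vertices -/
lemma face_eq_hull {V : Finset E} {F : Set E}
    (hF : IsExposed ℝ (convexHull ℝ (V : Set E)) F) :
    F = convexHull ℝ {v : E | v ∈ V ∧ v ∈ F} := by
  rcases F.eq_empty_or_nonempty with rfl | hne
  · simp
  · obtain ⟨l, c, hlc, hFe⟩ := (exposed_iff hne).mp hF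
    apply Set.Subset.antisymm
    · intro x hx
      rw [hFe] at hx
      have h1 := hull_eq hlc x hx.1 hx.2
      refine convexHull_mono ?_ h1
      rintro v ⟨hv, hvc⟩
      refine ⟨hv, ?_⟩
      rw [hFe]
      exact ⟨subset_convexHull ℝ _ (Finset.mem_coe.mpr hv), hvc⟩
    · exact convexHull_min (fun v hv => hv.2) (exposed_convex hF)

lemma face_subset_iff {V : Finset E} {F F' : Set E}
    (hF : IsExposed ℝ (convexHull ℝ (V : Set E)) F)
    (hF' : IsExposed ℝ (convexHull ℝ (V : Set E)) F') :
    F ⊆ F' ↔ ∀ v ∈ V, v ∈ F → v ∈ F' := by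
  constructor
  · intro h v _ hv
    exact h hv
  · intro h
    rw [face_eq_hull hF]
    exact convexHull_min (fun v hv => h v hv.1 hv.2) (exposed_convex hF')

lemma exists_vertex_mem {V : Finset E} {F : Set E}
    (hF : IsExposed ℝ (convexHull ℝ (V : Set E)) F) (hne : F.Nonempty) : ∃ v ∈ V, v ∈ F := by
  rw [face_eq_hull hF] at hne
  have := convexHull_nonempty_iff.mp hne
  obtain ⟨v, hv⟩ := this
  exact ⟨v, hv.1, hv.2⟩

lemma vertex_exposed {V : Finset E} (hV : (V : Set E) = (convexHull ℝ (V : Set E)).extremePoints ℝ)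
    {v : E} (hv : v ∈ V) : IsExposed ℝ (convexHull ℝ (V : Set E)) {v} := by
  classical
  have hvext : v ∈ (convexHull ℝ (V : Set E)).extremePoints ℝ := by
    rw [← hV]; exact Finset.mem_coe.mpr hv
  have hsub : convexHull ℝ ((V.erase v : Finset E) : Set E) ⊆ convexHull ℝ (V : Set E) :=
    convexHull_mono (by
      intro x hx
      exact Finset.mem_coe.mpr (Finset.mem_of_mem_erase (Finset.mem_coe.mp hx)))
  have hnot : v ∉ convexHull ℝ ((V.erase v : Finset E) : Set E) := by
    intro hmem
    have h1 : v ∈ (convexHull ℝ ((V.erase v : Finset E) : Set E)).extremePoints ℝ := by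
      refine ⟨hmem, ?_⟩
      intro x1 hx1 x2 hx2 hv12
      exact hvext.2 (hsub hx1) (hsub hx2) hv12
    have h2 := extremePoints_convexHull_subset h1
    exact (Finset.notMem_erase v V) (Finset.mem_coe.mp h2)
  have hclosed : IsClosed (convexHull ℝ ((V.erase v : Finset E) : Set E)) :=
    ((Finset.finite_toSet _).isCompact_convexHull (𝕜 := ℝ)).isClosed
  obtain ⟨f, u, hfv, hfu⟩ := geometric_hahn_banach_point_closed (convex_convexHull ℝ _) hclosed hnot
  rw [exposed_iff (Set.singleton_nonempty v)]
  refine ⟨-f.toLinearMap, -(f v), ?_, ?_⟩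
  · intro w hw
    by_cases hwv : w = v
    · rw [hwv]; simp
    · have := hfu w (subset_convexHull ℝ _ (Finset.mem_coe.mpr (Finset.mem_erase.mpr ⟨hwv, hw⟩)))
      simp only [LinearMap.neg_apply, ContinuousLinearMap.coe_coe]
      linarith
  · ext x
    constructor
    · rintro rfl
      exact ⟨subset_convexHull ℝ _ (Finset.mem_coe.mpr hv), by simp⟩
    · rintro ⟨hx1, hx2⟩
      have h1 := hull_eq (V := V) (l := -f.toLinearMap) (c := -(f v)) (by
        intro w hw
        by_cases hwv : w = v
        · rw [hwv]; simp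
        · have := hfu w (subset_convexHull ℝ _ (Finset.mem_coe.mpr (Finset.mem_erase.mpr ⟨hwv, hw⟩)))
          simp only [LinearMap.neg_apply, ContinuousLinearMap.coe_coe]
          linarith) x hx1 hx2
      have h2 : {w : E | w ∈ V ∧ (-f.toLinearMap) w = -(f v)} = {v} := by
        ext w
        constructor
        · rintro ⟨hw, hwf⟩
          by_contra hwv
          have := hfu w (subset_convexHull ℝ _ (Finset.mem_coe.mpr (Finset.mem_erase.mpr ⟨hwv, hw⟩)))
          simp only [LinearMap.neg_apply, ContinuousLinearMap.coe_coe, neg_inj] at hwf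
          linarith
        · rintro rfl
          exact ⟨hv, by simp⟩
      rw [h2, convexHull_singleton] at h1
      exact h1

lemma fdim_lt {V : Finset E} {F F' : Set E}
    (hF : IsExposed ℝ (convexHull ℝ (V : Set E)) F) (hne : F.Nonempty)
    (hF' : IsExposed ℝ (convexHull ℝ (V : Set E)) F') (hsub : F ⊆ F') (hneq : F ≠ F') :
    finrank ℝ (vectorSpan ℝ F) < finrank ℝ (vectorSpan ℝ F') := by
  obtain ⟨l, c, hlc, hFe⟩ := (exposed_iff hne).mp hF
  obtain ⟨x, hx, hxF⟩ : ∃ x ∈ F', x ∉ F := by
    by_contra h
    push Not at h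
    exact hneq (Set.Subset.antisymm hsub h)
  obtain ⟨x0, hx0⟩ := hne
  apply Submodule.finrank_lt_finrank_of_lt
  refine lt_of_le_of_ne (vectorSpan_mono ℝ hsub) ?_
  intro heq
  have h1 : x -ᵥ x0 ∈ vectorSpan ℝ F' := vsub_mem_vectorSpan ℝ hx (hsub hx0)
  rw [← heq] at h1
  have h2 : vectorSpan ℝ F ≤ LinearMap.ker l := by
    rw [vectorSpan_def, Submodule.span_le]
    rintro v ⟨a, ha, b, hb, rfl⟩
    rw [hFe] at ha hb
    simp only [vsub_eq_sub, SetLike.mem_coe, LinearMap.mem_ker, map_sub]
    rw [ha.2, hb.2, sub_self]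
  have h3 := h2 h1
  rw [LinearMap.mem_ker, vsub_eq_sub, map_sub] at h3
  apply hxF
  rw [hFe]
  refine ⟨hF'.subset hx, ?_⟩
  have h4 : l x0 = c := by
    have := hx0
    rw [hFe] at this
    exact this.2
  linarith

lemma exists_facet {V : Finset E} (hV : (V : Set E) = (convexHull ℝ (V : Set E)).extremePoints ℝ)
    {F : Set E} (hF : IsExposed ℝ (convexHull ℝ (V : Set E)) F) (hne : F.Nonempty)
    (hd : 1 ≤ finrank ℝ (vectorSpan ℝ F)) :
    ∃ F' : Set E, IsExposed ℝ (convexHull ℝ (V : Set E)) F' ∧ F'.Nonempty ∧ F' ⊆ F ∧ F' ≠ F ∧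
      finrank ℝ (vectorSpan ℝ F) ≤ finrank ℝ (vectorSpan ℝ F') + 1 := by
  classical
  by_contra hcon
  push Not at hcon
  obtain ⟨l, c, hlc, hFe⟩ := (exposed_iff hne).mp hF
  have key : ∀ k : ℕ, ∃ F' : Set E, IsExposed ℝ (convexHull ℝ (V : Set E)) F' ∧ F'.Nonempty ∧
      F' ⊆ F ∧ F' ≠ F ∧ k ≤ finrank ℝ (vectorSpan ℝ F') := by
    intro k
    induction k with
    | zero =>
      obtain ⟨v, hv, hvF⟩ := exists_vertex_mem hF hne
      refine ⟨{v}, vertex_exposed hV hv, ⟨v, rfl⟩, by simpa using hvF, ?_, Nat.zero_le _⟩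
      intro h
      rw [← h, vectorSpan_singleton] at hd
      simp at hd
    | succ k ih =>
      obtain ⟨F', hF', hne', hsub', hneq', hk⟩ := ih
      have hlt := hcon F' hF' hne' hsub' hneq'
      obtain ⟨l', c', hlc', hFe'⟩ := (exposed_iff hne').mp hF'
      have hWW : vectorSpan ℝ F' ≤ vectorSpan ℝ F := vectorSpan_mono ℝ hsub'
      have hWk : vectorSpan ℝ F' ≤ LinearMap.ker l' := by
        rw [vectorSpan_def, Submodule.span_le]
        rintro v ⟨a, ha, b, hb, rfl⟩
        rw [hFe'] at ha hb
        simp only [vsub_eq_sub, SetLike.mem_coe, LinearMap.mem_ker, map_sub]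
        rw [ha.2, hb.2, sub_self]
      have hK : finrank ℝ (vectorSpan ℝ F) ≤
          finrank ℝ (vectorSpan ℝ F ⊓ LinearMap.ker l' : Submodule ℝ E) + 1 := by
        have h1 := LinearMap.finrank_range_add_finrank_ker (l'.domRestrict (vectorSpan ℝ F))
        have h2 : finrank ℝ (LinearMap.range (l'.domRestrict (vectorSpan ℝ F))) ≤ 1 := by
          have := Submodule.finrank_le (LinearMap.range (l'.domRestrict (vectorSpan ℝ F)))
          simpa using this
        have h3 : finrank ℝ (LinearMap.ker (l'.domRestrict (vectorSpan ℝ F))) =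
            finrank ℝ (vectorSpan ℝ F ⊓ LinearMap.ker l' : Submodule ℝ E) := by
          have e1 : (LinearMap.ker (l'.domRestrict (vectorSpan ℝ F))).map (vectorSpan ℝ F).subtype =
              (vectorSpan ℝ F ⊓ LinearMap.ker l' : Submodule ℝ E) := by
            ext x
            simp only [Submodule.mem_map, LinearMap.mem_ker, Submodule.mem_inf]
            constructor
            · rintro ⟨y, hy, rfl⟩
              exact ⟨y.2, hy⟩
            · rintro ⟨hx, hx'⟩
              exact ⟨⟨x, hx⟩, hx', rfl⟩
          rw [← e1]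
          exact (LinearEquiv.finrank_eq (Submodule.equivMapOfInjective _
            (Submodule.injective_subtype _) _))
        omega
      have hlt2 : vectorSpan ℝ F' < (vectorSpan ℝ F ⊓ LinearMap.ker l' : Submodule ℝ E) := by
        refine lt_of_le_of_ne (le_inf hWW hWk) ?_
        intro h
        rw [← h] at hK
        omega
      obtain ⟨u, huK, huW⟩ := SetLike.exists_of_lt hlt2
      obtain ⟨g, hgu, hgW⟩ := Submodule.exists_le_ker_of_notMem huW
      obtain ⟨x0, hx0⟩ := hne'
      have hx0F := hsub' hx0
      have hx0l : l x0 = c := by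
        have := hx0F; rw [hFe] at this; exact this.2
      have hx0l' : l' x0 = c' := by
        have := hx0; rw [hFe'] at this; exact this.2
      -- choose the sign of g
      have hsgn : ∃ g : E →ₗ[ℝ] ℝ, g u ≠ 0 ∧ vectorSpan ℝ F' ≤ LinearMap.ker g ∧
          ∃ v ∈ V, v ∈ F ∧ g x0 < g v := by
        have hex : ∃ v ∈ V, v ∈ F ∧ g v ≠ g x0 := by
          by_contra hc
          push Not at hc
          apply hgu
          have hconst : ∀ x ∈ F, g x = g x0 := by
            intro x hx
            rw [face_eq_hull hF] at hx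
            have hcv : Convex ℝ {y : E | g y = g x0} := convex_hyperplane g.isLinear _
            exact (convexHull_min (fun v hv => hc v hv.1 hv.2) hcv) hx
          have h2 : vectorSpan ℝ F ≤ LinearMap.ker g := by
            rw [vectorSpan_def, Submodule.span_le]
            rintro v ⟨a, ha, b, hb, rfl⟩
            simp only [vsub_eq_sub, SetLike.mem_coe, LinearMap.mem_ker, map_sub]
            rw [hconst a ha, hconst b hb, sub_self]
          exact h2 huK.1
        obtain ⟨v, hv, hvF, hgv⟩ := hex
        rcases lt_or_gt_of_ne hgv with h | h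
        · refine ⟨-g, by simpa using hgu, ?_, v, hv, hvF, by simpa using h⟩
          intro w hw
          have := hgW hw
          rw [LinearMap.mem_ker] at this ⊢
          simp [this]
        · exact ⟨g, hgu, hgW, v, hv, hvF, h⟩
      obtain ⟨g, hgu, hgW, v1, hv1, hv1F, hv1g⟩ := hsgn
      have hgF' : ∀ x ∈ F', g x = g x0 := by
        intro x hx
        have := hgW (vsub_mem_vectorSpan ℝ hx hx0)
        rw [LinearMap.mem_ker, vsub_eq_sub, map_sub] at this
        linarith
      set S := V.filter (fun v => v ∈ F ∧ g x0 < g v) with hS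
      have hSne : S.Nonempty := ⟨v1, Finset.mem_filter.mpr ⟨hv1, hv1F, hv1g⟩⟩
      obtain ⟨vs, hvs, hvsmin⟩ := Finset.exists_min_image S
        (fun v => (c' - l' v) / (g v - g x0)) hSne
      rw [hS, Finset.mem_filter] at hvs
      obtain ⟨hvsV, hvsF, hvsg⟩ := hvs
      set t := (c' - l' vs) / (g vs - g x0) with ht
      have hvsF' : vs ∉ F' := by
        intro h
        have := hgF' vs h
        linarith
      have hvsl : l' vs < c' := by
        refine lt_of_le_of_ne (hlc' vs hvsV) ?_
        intro h
        apply hvsF'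
        rw [hFe']
        exact ⟨hF.subset hvsF, h⟩
      have ht0 : 0 < t := div_pos (by linarith) (by linarith)
      set h := l' + t • g with hh
      have hhv : ∀ x, h x = l' x + t * g x := by
        intro x; simp [hh]
      have hhF : ∀ v ∈ V, v ∈ F → h v ≤ c' + t * g x0 := by
        intro v hv hvF
        rw [hhv]
        by_cases hgv : g x0 < g v
        · have h1 := hvsmin v (Finset.mem_filter.mpr ⟨hv, hvF, hgv⟩)
          have h2 : t * (g v - g x0) ≤ (c' - l' v) / (g v - g x0) * (g v - g x0) :=
            mul_le_mul_of_nonneg_right h1 (by linarith)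
          rw [div_mul_cancel₀ _ (by linarith)] at h2
          linarith
        · push Not at hgv
          have h1 := hlc' v hv
          nlinarith
      obtain ⟨ε, hε, hεb⟩ := eps_exists' (V.filter (fun v => v ∉ F)) (fun v => c - l v)
        (fun v => h v - (c' + t * g x0)) (by
          intro v hv
          rw [Finset.mem_filter] at hv
          have h1 := hlc v hv.1
          have h2 : l v ≠ c := by
            intro h3
            apply hv.2
            rw [hFe]
            exact ⟨subset_convexHull ℝ _ (Finset.mem_coe.mpr hv.1), h3⟩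
          have := lt_of_le_of_ne h1 h2
          linarith)
      set m := l + ε • h with hm
      have hmv : ∀ x, m x = l x + ε * h x := by
        intro x; simp [hm]
      set cm := c + ε * (c' + t * g x0) with hcm
      have hmb : ∀ v ∈ V, m v ≤ cm := by
        intro v hv
        rw [hmv, hcm]
        by_cases hvF : v ∈ F
        · have h1 := hhF v hv hvF
          have h2 : l v = c := by
            have := hvF; rw [hFe] at this; exact this.2
          rw [h2]
          nlinarith
        · have := hεb v (Finset.mem_filter.mpr ⟨hv, hvF⟩)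
          nlinarith
      set F2 : Set E := {x | x ∈ convexHull ℝ (V : Set E) ∧ m x = cm} with hF2
      have hF'2 : F' ⊆ F2 := by
        intro x hx
        have h1 := hsub' hx
        rw [hFe] at h1
        have h2 := hx
        rw [hFe'] at h2
        refine ⟨h1.1, ?_⟩
        rw [hmv, hhv, h1.2, h2.2, hgF' x hx]
      have hF2ne : F2.Nonempty := ⟨x0, hF'2 hx0⟩
      have hF2exp : IsExposed ℝ (convexHull ℝ (V : Set E)) F2 :=
        (exposed_iff hF2ne).mpr ⟨m, cm, hmb, rfl⟩
      have hvsF2 : vs ∈ F2 := by
        refine ⟨hF.subset hvsF, ?_⟩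
        have h2 : l vs = c := by
          have := hvsF; rw [hFe] at this; exact this.2
        have h3 : t * (g vs - g x0) = c' - l' vs := by
          rw [ht, div_mul_cancel₀ _ (by linarith)]
        rw [hmv, hhv, h2, hcm]
        have : l' vs + t * g vs = c' + t * g x0 := by linarith
        rw [this]
      have hF2F : F2 ⊆ F := by
        rw [face_subset_iff hF2exp hF]
        intro v hv hvF2
        by_contra hvF
        have h1 := hεb v (Finset.mem_filter.mpr ⟨hv, hvF⟩)
        have h2 := hvF2.2
        rw [hmv, hcm] at h2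
        nlinarith
      have hF2neq : F2 ≠ F := by
        intro heq
        have hconst : ∀ x ∈ F, h x = c' + t * g x0 := by
          intro x hx
          have h1 : x ∈ F2 := by rw [heq]; exact hx
          have h2 := h1.2
          rw [hFe] at hx
          rw [hmv, hcm, hx.2] at h2
          have h3 : ε * h x = ε * (c' + t * g x0) := by linarith
          exact mul_left_cancel₀ hε.ne' h3
        have h2 : vectorSpan ℝ F ≤ LinearMap.ker h := by
          rw [vectorSpan_def, Submodule.span_le]
          rintro v ⟨a, ha, b, hb, rfl⟩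
          simp only [vsub_eq_sub, SetLike.mem_coe, LinearMap.mem_ker, map_sub]
          rw [hconst a ha, hconst b hb, sub_self]
        have h3 := h2 huK.1
        rw [LinearMap.mem_ker, hhv] at h3
        have h4 : l' u = 0 := huK.2
        rw [h4, zero_add] at h3
        rcases mul_eq_zero.mp h3 with h5 | h5
        · exact absurd h5 ht0.ne'
        · exact hgu h5
      refine ⟨F2, hF2exp, hF2ne, hF2F, hF2neq, ?_⟩
      have := fdim_lt hF' ⟨x0, hx0⟩ hF2exp hF'2 (by
        intro h
        rw [h] at hvsF'
        exact hvsF' hvsF2)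
      omega
  obtain ⟨F', _, _, _, _, hk⟩ := key (finrank ℝ E + 1)
  have := Submodule.finrank_le (vectorSpan ℝ F')
  omega

end hull

end PM8
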