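import Pool.Agent.V11151.PM.Comb

set_option autoImplicit false
set_option linter.unusedSectionVars false

namespace PM8

open Module

variable {E : Type} [NormedAddCommGroup E] [InnerProductSpace ℝ E]

/-- `Aut(P)`: the orthogonal maps that map `P` onto itself -/
def Polytope.Aut (P : Polytope E) : Set (E ≃ₗᵢ[ℝ] E) := {g | g '' P.body = P.body}

/-- condition (i): `Aut(P)` acts transitively on the vertices -/
def VertexTransitive (P : Polytope E) : Prop :=
  ∀ v ∈ P.verts, ∀ w ∈ P.verts, ∃ g ∈ P.Aut, g v = w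

/-- condition (ii): every automorphism of the edge-graph is induced by an element of `Aut(P)` -/
def RealizesGraphSymmetries (P : Polytope E) : Prop :=
  ∀ φ : P.edgeGraph ≃g P.edgeGraph, ∃ g ∈ P.Aut, ∀ v : P.verts, g v.1 = (φ v).1

/-- condition (iii): the only `Aut(P)`-invariant subspaces are `0` and the whole space -/
def IrreducibleAut (P : Polytope E) : Prop :=
  ∀ W : Submodule ℝ E, (∀ g ∈ P.Aut, ∀ x ∈ W, g x ∈ W) → W = ⊥ ∨ W = ⊤

open Classical in
/-- the adjacency matrix of the edge-graph applied to `f`: the sum of `f` over the neighbours -/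
noncomputable def Polytope.nbrSum (P : Polytope E) (f : P.verts → ℝ) (v : P.verts) : ℝ :=
  ∑ w : P.verts, if P.edgeGraph.Adj v w then f w else 0

/-- `f` lies in the `θ`-eigenspace of the edge-graph -/
def Polytope.IsEigenfunction (P : Polytope E) (θ : ℝ) (f : P.verts → ℝ) : Prop :=
  ∀ v, P.nbrSum f v = θ * f v

/-- `P` is spectral: there are an eigenvalue `θ` of the edge-graph, a matrix `Φ` (with `e > 0`
columns) whose columns form a basis of the `θ`-eigenspace, and an invertible linear map sending
each vertex `v` of `P` to the row `Φ v`. -/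
def IsSpectral (P : Polytope E) : Prop :=
  ∃ (θ : ℝ) (e : ℕ) (Φ : P.verts → Fin e → ℝ), 0 < e ∧
    LinearIndependent ℝ (fun (k : Fin e) (v : P.verts) => Φ v k) ∧
    (∀ f : P.verts → ℝ, f ∈ Submodule.span ℝ (Set.range (fun (k : Fin e) (v : P.verts) => Φ v k)) ↔
      P.IsEigenfunction θ f) ∧
    ∃ T : E ≃ₗ[ℝ] (Fin e → ℝ), ∀ v : P.verts, T v.1 = Φ v

end PM8
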