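import Pool.Agent.V11151.PM.Chk
import Pool.Agent.V11151.PM.Chk2

set_option autoImplicit false
set_option linter.unusedSectionVars false

namespace PM8

open Module

/-- closure of the table under conjugation by `π` -/
def Cl (π : Equiv.Perm (Fin 8)) : Prop := ∀ i : Fin 105, ∃ j : Fin 105, ∀ a, mf j (π a) = π (mf i a)

lemma Cl_all (π : Equiv.Perm (Fin 8)) : Cl π := by
  have h := Equiv.Perm.mclosure_swap_castSucc_succ 7
  have hπ : π ∈ Submonoid.closure (Set.range fun i : Fin 7 => Equiv.swap i.castSucc i.succ) := by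
    rw [h]; trivial
  induction hπ using Submonoid.closure_induction with
  | mem x hx =>
    obtain ⟨k, rfl⟩ := hx
    intro i
    exact ⟨sw k i, fun a => chk_sw k i a⟩
  | one => intro i; exact ⟨i, fun a => rfl⟩
  | mul x y _ _ hx hy =>
    intro i
    obtain ⟨j, hj⟩ := hy i
    obtain ⟨k, hk⟩ := hx j
    refine ⟨k, fun a => ?_⟩
    rw [Equiv.Perm.mul_apply, Equiv.Perm.mul_apply, hk, hj]

lemma inter_eq_eight {i j : Fin 105} (h : inter i j = 8) : i = j := by
  apply chk_inj
  intro a
  unfold inter at h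
  have h1 : (Finset.univ.filter (fun a : Fin 8 => mf i a = mf j a)) = Finset.univ := by
    apply Finset.eq_univ_of_card
    rw [h]; simp
  have := Finset.mem_univ a
  rw [← h1, Finset.mem_filter] at this
  exact this.2

/-- every permutation of the eight points induces a symmetry of the table -/
lemma exists_sym (π : Equiv.Perm (Fin 8)) : ∃ σ : Equiv.Perm (Fin 105),
    (∀ i a, mf (σ i) (π a) = π (mf i a)) ∧ (∀ i j, inter (σ i) (σ j) = inter i j) ∧
    (∀ i j, Hb (σ i) (σ j) = Hb i j) := by
  choose s hs using Cl_all π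
  have hval : ∀ i a, mf (s i) a = π (mf i (π.symm a)) := by
    intro i a
    have := hs i (π.symm a)
    rw [Equiv.apply_symm_apply] at this
    exact this
  have hint : ∀ i j, inter (s i) (s j) = inter i j := by
    intro i j
    unfold inter
    symm
    apply Finset.card_bij (fun a _ => π a)
    · intro a ha
      simp only [Finset.mem_filter, Finset.mem_univ, true_and] at ha ⊢
      rw [hs, hs, ha]
    · intro a _ b _ hab
      exact π.injective hab
    · intro b hb
      simp only [Finset.mem_filter, Finset.mem_univ, true_and] at hb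
      refine ⟨π.symm b, ?_, by simp⟩
      simp only [Finset.mem_filter, Finset.mem_univ, true_and]
      rw [hval, hval] at hb
      exact π.injective hb
  have hinj : Function.Injective s := by
    intro i j hij
    apply inter_eq_eight
    rw [← hint, hij, chk_self]
  have hH : ∀ i j, Hb (s i) (s j) = Hb i j := by
    intro i j
    have h1 : Hb (s i) (s j) = true ↔ Hb i j = true := by
      rw [chk_H, chk_H]
      constructor
      · rintro ⟨h1, h2⟩
        refine ⟨fun a h => ?_, fun a => ?_⟩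
        · apply h1 (π a)
          rw [hs, hs, h]
        · have := h2 (π a)
          rw [hs, hs, hs, hs] at this
          exact π.injective this
      · rintro ⟨h1, h2⟩
        refine ⟨fun a h => ?_, fun a => ?_⟩
        · apply h1 (π.symm a)
          rw [hval, hval] at h
          exact π.injective h
        · rw [hval, hval, hval, hval]
          simp only [Equiv.symm_apply_apply]
          rw [h2]
    cases h3 : Hb i j <;> cases h4 : Hb (s i) (s j) <;> simp_all
  exact ⟨Equiv.ofBijective s (Finite.injective_iff_bijective.mp hinj), hs, hint, hH⟩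

lemma exists_trans (i : Fin 105) : ∃ σ : Equiv.Perm (Fin 105),
    (∀ i j, inter (σ i) (σ j) = inter i j) ∧ (∀ i j, Hb (σ i) (σ j) = Hb i j) ∧ σ 0 = i := by
  have hinj : Function.Injective (pf i) := fun a b h => chk_pf_inj i a b h
  let π : Equiv.Perm (Fin 8) := Equiv.ofBijective (pf i) (Finite.injective_iff_bijective.mp hinj)
  have hπ : ∀ a, π a = pf i a := fun a => rfl
  obtain ⟨σ, h1, h2, h3⟩ := exists_sym π
  refine ⟨σ, h2, h3, ?_⟩
  apply chk_inj
  intro a
  obtain ⟨b, rfl⟩ := π.surjective a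
  rw [h1, hπ, hπ, chk_pf]

lemma exists_stab (j : Fin 105) : ∃ σ : Equiv.Perm (Fin 105),
    (∀ i j, inter (σ i) (σ j) = inter i j) ∧ σ 0 = 0 ∧ σ j = rep j := by
  have hinj : Function.Injective (qf j) := fun a b h => chk_qf_inj j a b h
  let π : Equiv.Perm (Fin 8) := Equiv.ofBijective (qf j) (Finite.injective_iff_bijective.mp hinj)
  have hπ : ∀ a, π a = qf j a := fun a => rfl
  obtain ⟨σ, h1, h2, _⟩ := exists_sym π
  refine ⟨σ, h2, ?_, ?_⟩
  · apply chk_inj
    intro a
    obtain ⟨b, rfl⟩ := π.surjective a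
    rw [h1, hπ, hπ, chk_qf0]
  · apply chk_inj
    intro a
    obtain ⟨b, rfl⟩ := π.surjective a
    rw [h1, hπ, hπ, chk_qf]

lemma inter_comm (i j : Fin 105) : inter i j = inter j i := by
  unfold inter
  congr 1
  ext a
  simp [eq_comm]

lemma g_edge (i j k : Fin 105) (hij : i ≠ j) (hH : Hb i j = false) (hki : k ≠ i) (hkj : k ≠ j) :
    inter k i + inter k j < 8 + inter i j := by
  obtain ⟨σ, h1, h2, rfl⟩ := exists_trans i
  obtain ⟨j, rfl⟩ := σ.surjective j
  obtain ⟨k, rfl⟩ := σ.surjective k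
  rw [h1, h1, h1]
  rw [h2] at hH
  exact chk_edge j k (fun h => hij (by rw [h])) hH (fun h => hki (by rw [h])) (fun h => hkj (by rw [h]))

lemma g_kl (i j : Fin 105) (hH : Hb i j = true) : ∃ k l, k ≠ i ∧ k ≠ j ∧ l ≠ i ∧ l ≠ j ∧
    Quad i j k l := by
  obtain ⟨σ, h1, h2, rfl⟩ := exists_trans i
  obtain ⟨j, rfl⟩ := σ.surjective j
  rw [h2] at hH
  obtain ⟨a1, a2, a3, a4, a5, a6, a7, a8, a9, a10⟩ := chk_kl j hH
  refine ⟨σ (kk j), σ (ll j), fun h => a1 (σ.injective h), fun h => a2 (σ.injective h),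
    fun h => a3 (σ.injective h), fun h => a4 (σ.injective h), ?_⟩
  unfold Quad
  rw [h1, h1, h1, h1, h1, h1]
  exact ⟨a5, a6, a7, a8, a9, a10⟩

lemma cn_sym {σ : Equiv.Perm (Fin 105)} (h : ∀ i j, Hb (σ i) (σ j) = Hb i j) (i j : Fin 105) :
    cn (σ i) (σ j) = cn i j := by
  unfold cn
  symm
  apply Finset.card_bij (fun a _ => σ a)
  · intro a ha
    simp only [Finset.mem_filter, Finset.mem_univ, true_and] at ha ⊢
    rw [h, h]; exact ha
  · intro a _ b _ hab
    exact σ.injective hab
  · intro b hb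
    obtain ⟨a, rfl⟩ := σ.surjective b
    simp only [Finset.mem_filter, Finset.mem_univ, true_and] at hb
    refine ⟨a, ?_, rfl⟩
    simp only [Finset.mem_filter, Finset.mem_univ, true_and]
    rw [h, h] at hb; exact hb

lemma g_cn (i j : Fin 105) (hij : i ≠ j) (hH : Hb i j = false) : inter i j = gfun (cn i j) := by
  obtain ⟨σ, h1, h2, rfl⟩ := exists_trans i
  obtain ⟨j, rfl⟩ := σ.surjective j
  rw [h1, cn_sym h2]
  rw [h2] at hH
  exact chk_cn j (fun h => hij (by rw [h])) hH

lemma g_H (i j : Fin 105) (hH : Hb i j = true) : inter i j = 0 := by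
  obtain ⟨k, l, _, _, _, _, h⟩ := g_kl i j hH
  exact h.1

lemma g_lt (i j : Fin 105) (hij : i ≠ j) : inter i j < 8 := by
  obtain ⟨σ, h1, h2, rfl⟩ := exists_trans i
  obtain ⟨j, rfl⟩ := σ.surjective j
  rw [h1]
  exact chk_lt j (fun h => hij (by rw [h]))

lemma g_row (i : Fin 105) : ∑ j : Fin 105, inter i j = 120 := by
  obtain ⟨σ, h1, h2, rfl⟩ := exists_trans i
  rw [← Equiv.sum_comp σ]
  rw [Finset.sum_congr rfl (fun j _ => h1 0 j)]
  exact chk_row

lemma g_sq (i k : Fin 105) : ∑ j : Fin 105, inter i j * inter j k = 36 * inter i k + 96 := by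
  obtain ⟨σ, h1, h2, rfl⟩ := exists_trans i
  obtain ⟨k, rfl⟩ := σ.surjective k
  rw [← Equiv.sum_comp σ]
  rw [Finset.sum_congr rfl (fun j _ => by rw [h1, h1])]
  rw [h1]
  exact chk_sq k

end PM8
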